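import Mathlib

/-!
# Primes m^3+k and local densities: definitions and elementary facts

`e x = exp(2 pi i x)`, the cubic Weyl sum `C`, the prime sum `S`, the grid points `al N t = t/N`
for `t` in `ZMod N`, the major arcs `Maj Q w` and the rough squarefree moduli `rough Q R`.
-/

namespace Pool.Agent.H26.LDP

open Finset

/-- e(x) = exp(2 pi i x). -/
noncomputable def e (x : ℝ) : ℂ := Complex.exp (2 * Real.pi * Complex.I * x)

/-- Distance to the nearest integer. -/
noncomputable def nn (x : ℝ) : ℝ := |x - round x|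

/-- The cubic Weyl sum. -/
noncomputable def C (M : ℕ) (x : ℝ) : ℂ := ∑ m ∈ Icc 1 M, e ((m : ℝ) ^ 3 * x)

/-- The exponential sum over the primes in (M, 3X]. -/
noncomputable def S (M X : ℕ) (x : ℝ) : ℂ := ∑ n ∈ (Ioc M (3 * X)).filter Nat.Prime, e ((n : ℝ) * x)

/-- The number of primes in (M, 3X]. -/
def A (M X : ℕ) : ℕ := ((Ioc M (3 * X)).filter Nat.Prime).card

/-- Grid points t/N. -/
noncomputable def al (N : ℕ) (t : ZMod N) : ℝ := (t.val : ℝ) / N

/-- Major arcs: `x` is within `w` of a rational number with denominator at most `Q`. -/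
def Maj (Q : ℕ) (w x : ℝ) : Prop := ∃ q : ℕ, 1 ≤ q ∧ q ≤ Q ∧ ∃ a : ℤ, |x - a / q| ≤ w

/-- Squarefree numbers up to `R` all of whose prime factors exceed `Q`. -/
noncomputable def rough (Q R : ℕ) : Finset ℕ := by
  classical exact (Icc 1 R).filter (fun r => Squarefree r ∧ ∀ p : ℕ, p.Prime → p ∣ r → Q < p)

/-- The number of 1 ≤ m ≤ M with m^3+k prime. -/
def cnt (M k : ℕ) : ℕ := ((Icc 1 M).filter (fun m => (m ^ 3 + k).Prime)).card

theorem mem_rough {Q R r : ℕ} : r ∈ rough Q R ↔ (1 ≤ r ∧ r ≤ R) ∧ Squarefree r ∧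
    ∀ p : ℕ, p.Prime → p ∣ r → Q < p := by
  unfold rough
  simp

theorem e_add (x y : ℝ) : e (x + y) = e x * e y := by
  unfold e
  rw [← Complex.exp_add]
  congr 1
  push_cast
  ring

theorem e_zero : e 0 = 1 := by
  simp [e]

theorem e_neg (x : ℝ) : e (-x) = (starRingEnd ℂ) (e x) := by
  unfold e
  rw [← Complex.exp_conj]
  congr 1
  have h2 : (starRingEnd ℂ) 2 = 2 := map_ofNat _ 2
  simp [h2]

theorem norm_e (x : ℝ) : ‖e x‖ = 1 := by
  unfold e
  have : (2 * Real.pi * Complex.I * x : ℂ) = ((2 * Real.pi * x : ℝ) : ℂ) * Complex.I := by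
    push_cast
    ring
  rw [this, Complex.norm_exp_ofReal_mul_I]

theorem e_ne_zero (x : ℝ) : e x ≠ 0 := by
  unfold e
  exact Complex.exp_ne_zero _

theorem e_int (n : ℤ) : e n = 1 := by
  unfold e
  have : (2 * Real.pi * Complex.I * ((n : ℝ) : ℂ) : ℂ) = n * (2 * Real.pi * Complex.I) := by
    push_cast
    ring
  rw [this, Complex.exp_int_mul_two_pi_mul_I]

theorem e_add_int (x : ℝ) (n : ℤ) : e (x + n) = e x := by
  rw [e_add, e_int, mul_one]

theorem e_mul_nat (x : ℝ) (n : ℕ) : e (n * x) = e x ^ n := by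
  induction n with
  | zero => simp [e_zero]
  | succ n ih =>
    rw [pow_succ, ← ih, ← e_add]
    congr 1
    push_cast
    ring

theorem nn_nonneg (x : ℝ) : 0 ≤ nn x := abs_nonneg _

theorem nn_le (x : ℝ) (n : ℤ) : nn x ≤ |x - n| := round_le x n

theorem nn_le_half (x : ℝ) : nn x ≤ 1 / 2 := abs_sub_round x

/-- |1 - e(x)| = 2 |sin(pi x)|. -/
theorem norm_one_sub_e (x : ℝ) : ‖1 - e x‖ = 2 * |Real.sin (Real.pi * x)| := by
  have h : e x = Complex.exp (Complex.I * ((2 * Real.pi * x : ℝ) : ℂ)) := by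
    unfold e
    congr 1
    push_cast
    ring
  rw [norm_sub_rev, h, Complex.norm_exp_I_mul_ofReal_sub_one, Real.norm_eq_abs, abs_mul]
  norm_num
  congr 2
  ring

theorem norm_one_sub_e_le (x : ℝ) (n : ℤ) : ‖1 - e x‖ ≤ 2 * Real.pi * |x - n| := by
  have h1 : e x = e (x - n) := by
    rw [← e_add_int (x - n) n]
    congr 1
    ring
  rw [h1, norm_one_sub_e]
  have h2 : |Real.sin (Real.pi * (x - n))| ≤ |Real.pi * (x - n)| := Real.abs_sin_le_abs
  rw [abs_mul, abs_of_pos Real.pi_pos] at h2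
  linarith

theorem norm_one_sub_e_le_two (x : ℝ) : ‖1 - e x‖ ≤ 2 := by
  calc ‖1 - e x‖ ≤ ‖(1 : ℂ)‖ + ‖e x‖ := norm_sub_le _ _
    _ = 2 := by rw [norm_one, norm_e]; norm_num

theorem le_norm_one_sub_e (x : ℝ) : 4 * nn x ≤ ‖1 - e x‖ := by
  have h1 : e x = e (x - round x) := by
    rw [← e_add_int (x - round x) (round x)]
    congr 1
    ring
  rw [h1, norm_one_sub_e]
  set y := x - round x with hy
  have hy2 : |y| ≤ 1 / 2 := abs_sub_round x
  have h3 : |Real.sin (Real.pi * y)| = Real.sin (Real.pi * |y|) := by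
    rcases le_total 0 y with h | h
    · rw [abs_of_nonneg h, abs_of_nonneg]
      apply Real.sin_nonneg_of_nonneg_of_le_pi
      · exact mul_nonneg Real.pi_pos.le h
      · rw [abs_of_nonneg h] at hy2
        nlinarith [Real.pi_pos]
    · rw [abs_of_nonpos h, mul_neg, Real.sin_neg, abs_of_nonpos]
      have : 0 ≤ Real.sin (Real.pi * (-y)) := by
        apply Real.sin_nonneg_of_nonneg_of_le_pi
        · exact mul_nonneg Real.pi_pos.le (by linarith)
        · rw [abs_of_nonpos h] at hy2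
          nlinarith [Real.pi_pos]
      rw [mul_neg, Real.sin_neg] at this
      linarith
  rw [h3]
  have h4 : 2 / Real.pi * (Real.pi * |y|) ≤ Real.sin (Real.pi * |y|) := by
    apply Real.mul_le_sin
    · exact mul_nonneg Real.pi_pos.le (abs_nonneg y)
    · nlinarith [Real.pi_pos]
  have h5 : 2 / Real.pi * (Real.pi * |y|) = 2 * |y| := by
    field_simp
  have h6 : nn x = |y| := rfl
  rw [h6]
  linarith

theorem norm_C_le (M : ℕ) (x : ℝ) : ‖C M x‖ ≤ M := by
  unfold C
  calc ‖∑ m ∈ Icc 1 M, e ((m : ℝ) ^ 3 * x)‖ ≤ ∑ m ∈ Icc 1 M, ‖e ((m : ℝ) ^ 3 * x)‖ :=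
        norm_sum_le _ _
    _ = M := by simp [norm_e]

end Pool.Agent.H26.LDP
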