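import Pool.Agent.H26.LDP.Defs

/-!
# Geometric sums and Weyl differencing

Proof of `geom`. Put z = e(g). Then (1 - z) * sum_{m=1}^n e(g m + c) = e(g + c) - e(g (n+1) + c), of norm
at most 2, and |1 - z| >= 4 nn g (`le_norm_one_sub_e`).

Proof of `weyl_diff`. |T|^2 = sum over m, m' in [1,M] of e(f m - f m'). The diagonal gives M. The pairs with
m' < m, written m = m' + h with 1 <= h <= M-1 and 1 <= m' <= M-h, give sum_h D_h with
D_h = sum_{m=1}^{M-h} e(f(m+h) - f m); the pairs with m < m' give the complex conjugate. Take norms.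
-/

namespace Pool.Agent.H26.LDP

open Finset

private theorem geom_aux (g c : ℝ) (n : ℕ) :
    (1 - e g) * ∑ m ∈ Icc 1 n, e (g * m + c) = e (g + c) - e (g * (n + 1) + c) := by
  induction n with
  | zero =>
    simp
  | succ n ih =>
    rw [Finset.sum_Icc_succ_top (by omega), mul_add, ih]
    have h1 : e g * e (g * ((n + 1 : ℕ) : ℝ) + c) = e (g * (((n + 1 : ℕ) : ℝ) + 1) + c) := by
      rw [← e_add]
      congr 1
      ring
    rw [← h1]
    push_cast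
    ring

theorem geom (g c : ℝ) (n : ℕ) : ‖∑ m ∈ Icc 1 n, e (g * m + c)‖ * (2 * nn g) ≤ 1 := by
  have h1 := geom_aux g c n
  have h2 : ‖(1 - e g) * ∑ m ∈ Icc 1 n, e (g * m + c)‖ ≤ 2 := by
    rw [h1]
    calc ‖e (g + c) - e (g * (n + 1) + c)‖ ≤ ‖e (g + c)‖ + ‖e (g * (n + 1) + c)‖ := norm_sub_le _ _
      _ = 2 := by rw [norm_e, norm_e]; norm_num
  rw [norm_mul] at h2
  have h3 := mul_le_mul_of_nonneg_right (le_norm_one_sub_e g)
    (norm_nonneg (∑ m ∈ Icc 1 n, e (g * m + c)))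
  linarith

theorem norm_sum_e_le (f : ℕ → ℝ) (n : ℕ) : ‖∑ m ∈ Icc 1 n, e (f m)‖ ≤ n := by
  calc ‖∑ m ∈ Icc 1 n, e (f m)‖ ≤ ∑ m ∈ Icc 1 n, ‖e (f m)‖ := norm_sum_le _ _
    _ = n := by simp [norm_e]

private theorem dsum_succ (b : ℕ → ℕ → ℂ) (M : ℕ) :
    ∑ h ∈ Icc 1 M, ∑ m ∈ Icc 1 (M + 1 - h), b (m + h) m =
      (∑ h ∈ Icc 1 (M - 1), ∑ m ∈ Icc 1 (M - h), b (m + h) m) + ∑ m ∈ Icc 1 M, b (M + 1) m := by
  have h1 : ∀ h ∈ Icc 1 M, ∑ m ∈ Icc 1 (M + 1 - h), b (m + h) m =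
      (∑ m ∈ Icc 1 (M - h), b (m + h) m) + b (M + 1) (M + 1 - h) := by
    intro h hh
    rw [mem_Icc] at hh
    have e1 : M + 1 - h = (M - h) + 1 := by omega
    rw [e1, Finset.sum_Icc_succ_top (by omega)]
    congr 2
    omega
  rw [Finset.sum_congr rfl h1, Finset.sum_add_distrib]
  congr 1
  · rcases Nat.eq_zero_or_pos M with h0 | h0
    · subst h0
      simp
    · obtain ⟨n, rfl⟩ : ∃ n, M = n + 1 := ⟨M - 1, by omega⟩
      rw [Finset.sum_Icc_succ_top (by omega)]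
      simp
  · apply Finset.sum_nbij' (fun h => M + 1 - h) (fun m => M + 1 - m)
    · intro h hh
      rw [mem_Icc] at hh ⊢
      omega
    · intro h hh
      rw [mem_Icc] at hh ⊢
      omega
    · intro h hh
      rw [mem_Icc] at hh
      omega
    · intro h hh
      rw [mem_Icc] at hh
      omega
    · intro h hh
      rfl

private theorem weyl_id (a : ℕ → ℂ) (ha : ∀ m, ‖a m‖ = 1) (M : ℕ) :
    ‖∑ m ∈ Icc 1 M, a m‖ ^ 2 =
      M + 2 * (∑ h ∈ Icc 1 (M - 1), ∑ m ∈ Icc 1 (M - h), a (m + h) * (starRingEnd ℂ) (a m)).re := by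
  induction M with
  | zero => simp
  | succ M ih =>
    have e1 : M + 1 - 1 = M := rfl
    rw [e1, dsum_succ (fun x y => a x * (starRingEnd ℂ) (a y)) M, Finset.sum_Icc_succ_top (by omega)]
    rw [← Complex.normSq_eq_norm_sq, Complex.normSq_add, Complex.normSq_eq_norm_sq,
      Complex.normSq_eq_norm_sq, ih, ha]
    have h2 : ∑ m ∈ Icc 1 M, a (M + 1) * (starRingEnd ℂ) (a m)
        = a (M + 1) * (starRingEnd ℂ) (∑ m ∈ Icc 1 M, a m) := by
      rw [map_sum, Finset.mul_sum]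
    rw [h2, Complex.add_re]
    have h3 : (a (M + 1) * (starRingEnd ℂ) (∑ m ∈ Icc 1 M, a m)).re
        = ((∑ m ∈ Icc 1 M, a m) * (starRingEnd ℂ) (a (M + 1))).re := by
      simp only [Complex.mul_re, Complex.conj_re, Complex.conj_im]
      ring
    rw [h3]
    push_cast
    ring

theorem weyl_diff (f : ℕ → ℝ) (M : ℕ) :
    ‖∑ m ∈ Icc 1 M, e (f m)‖ ^ 2 ≤
      M + 2 * ∑ h ∈ Icc 1 (M - 1), ‖∑ m ∈ Icc 1 (M - h), e (f (m + h) - f m)‖ := by
  rw [weyl_id (fun m => e (f m)) (fun m => norm_e _) M]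
  have h1 : ∀ h m : ℕ, e (f (m + h)) * (starRingEnd ℂ) (e (f m)) = e (f (m + h) - f m) := by
    intro h m
    rw [← e_neg, ← e_add]
    rfl
  have h2 : ∑ h ∈ Icc 1 (M - 1), ∑ m ∈ Icc 1 (M - h), e (f (m + h)) * (starRingEnd ℂ) (e (f m))
      = ∑ h ∈ Icc 1 (M - 1), ∑ m ∈ Icc 1 (M - h), e (f (m + h) - f m) :=
    Finset.sum_congr rfl fun h _ => Finset.sum_congr rfl fun m _ => h1 h m
  rw [h2]
  have h3 := (Complex.re_le_norm (∑ h ∈ Icc 1 (M - 1), ∑ m ∈ Icc 1 (M - h), e (f (m + h) - f m))).trans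
    (norm_sum_le _ _)
  linarith

end Pool.Agent.H26.LDP
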