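import Pool.Agent.H26.LDP.Defs

/-!
# A recurrence lemma

Let L be a subset of [1,N] with at least nu N elements (nu N >= 2) such that nn (l g) <= tau for l in L, where
16 tau <= nu. Then some 1 <= q <= 2/nu has nn (q g) <= 32 tau / (nu^2 N).

Proof. Note nu <= 1 because L.card <= N, and tau >= 0 because L is nonempty.
(1) There are l < l' in L with l' - l <= 2/nu. Otherwise with D = floor(2/nu) any two elements of L differ by at
least D+1, the map l -> l/(D+1) is injective on L with values in [0, N/(D+1)], so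
|L| <= N/(D+1) + 1 < nu N/2 + 1 <= nu N, a contradiction. Put q = l' - l, c = round(l' g) - round(l g),
b = q g - c. Then |b| <= 2 tau and nn (q g) <= |b|. If b = 0 we are done; assume b <> 0.
(2) q <= 2/nu <= N. Some residue class u mod q contains at least |L|/q >= nu N/q elements of L; write them
l = u + q j with 0 <= j <= N/q. For such l: l g = u g + j c + j b, so with n_j = round(l g) - j c (an
integer) |u g + j b - n_j| <= tau.
(3) For a fixed integer n the j with |u g + j b - n| <= tau have pairwise differences <= 2 tau/|b|, so there are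
at most 2 tau/|b| + 1 <= 4 tau/|b| of them (as |b| <= 2 tau). All n_j lie in a real interval of length
(N/q)|b| + 2 tau, so there are at most (N/q)|b| + 2 tau + 1 <= (N/q)|b| + 2 of them.
(Finset.card_le_mul_card_image or sum over fibres.)
(4) Hence nu N/q <= ((N/q)|b| + 2)(4 tau/|b|) = 4 tau N/q + 8 tau/|b|, and 4 tau <= nu/4, so
(3/4) nu N/q <= 8 tau/|b|, |b| <= (32/3) tau q/(nu N) <= (64/3) tau/(nu^2 N).
-/

namespace Pool.Agent.H26.LDP

open Finset

private theorem card_diam (J : Finset ℤ) (R : ℝ) (hR : 0 ≤ R)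
    (h : ∀ x ∈ J, ∀ y ∈ J, (x : ℝ) - y ≤ R) : (J.card : ℝ) ≤ R + 1 := by
  rcases J.eq_empty_or_nonempty with h0 | h0
  · subst h0
    simp
    linarith
  · have hsub : J ⊆ Icc (J.min' h0) (J.min' h0 + ⌊R⌋) := by
      intro x hx
      rw [mem_Icc]
      refine ⟨J.min'_le x hx, ?_⟩
      have h1 := h x hx _ (J.min'_mem h0)
      have h2 : ((x - J.min' h0 : ℤ) : ℝ) ≤ R := by
        push_cast
        exact h1
      have h3 := Int.le_floor.mpr h2
      omega
    have h1 := card_le_card hsub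
    rw [Int.card_Icc] at h1
    have hf : 0 ≤ ⌊R⌋ := Int.floor_nonneg.mpr hR
    have h2 : (J.card : ℤ) ≤ ⌊R⌋ + 1 := by omega
    have h3 : ((J.card : ℤ) : ℝ) ≤ ((⌊R⌋ + 1 : ℤ) : ℝ) := by exact_mod_cast h2
    push_cast at h3
    have h4 := Int.floor_le R
    linarith

private theorem exists_pair (N : ℕ) (L : Finset ℕ) (hL : L ⊆ Icc 1 N) (ν : ℝ) (hν : 0 < ν)
    (hcard : ν * N ≤ (L.card : ℝ)) (h2 : 2 ≤ ν * N) :
    ∃ l ∈ L, ∃ l' ∈ L, l < l' ∧ ((l' - l : ℕ) : ℝ) ≤ 2 / ν := by
  set D := ⌊2 / ν⌋₊ with hD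
  have hD1 : 2 / ν < (D : ℝ) + 1 := Nat.lt_floor_add_one _
  have hD2 : (D : ℝ) ≤ 2 / ν := Nat.floor_le (by positivity)
  have hc : (range (N / (D + 1) + 1)).card < L.card := by
    rw [card_range]
    have h3 : ((N / (D + 1) : ℕ) : ℝ) ≤ (N : ℝ) / ((D : ℝ) + 1) := by
      have := @Nat.cast_div_le ℝ _ _ _ N (D + 1)
      push_cast at this
      exact this
    have hN0 : (0 : ℝ) < N := by
      by_contra hcon
      have : (N : ℝ) = 0 := le_antisymm (not_lt.mp hcon) (Nat.cast_nonneg N)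
      rw [this] at h2
      linarith
    have h4 : (N : ℝ) / ((D : ℝ) + 1) < ν * N / 2 := by
      rw [div_lt_iff₀ (by positivity)]
      have h5 : 1 < ν / 2 * ((D : ℝ) + 1) := by
        have := mul_lt_mul_of_pos_left hD1 (half_pos hν)
        have e1 : ν / 2 * (2 / ν) = 1 := by field_simp
        rw [e1] at this
        exact this
      nlinarith
    have h6 : ((N / (D + 1) + 1 : ℕ) : ℝ) < (L.card : ℝ) := by
      push_cast
      linarith
    exact_mod_cast h6
  obtain ⟨x, hx, y, hy, hxy, he⟩ := exists_ne_map_eq_of_card_lt_of_maps_to hc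
    (f := fun l => l / (D + 1)) (by
      intro l hl
      have := (mem_Icc.mp (hL hl)).2
      simp only [coe_range, Set.mem_Iio]
      exact Nat.lt_succ_of_le (Nat.div_le_div_right this))
  have key : ∀ x y : ℕ, x / (D + 1) = y / (D + 1) → x < y → y - x ≤ D := by
    intro x y h1 h2
    have h3 := Nat.div_add_mod x (D + 1)
    have h4 := Nat.div_add_mod y (D + 1)
    have h5 := Nat.mod_lt y (show D + 1 > 0 by omega)
    have h6 := Nat.mod_lt x (show D + 1 > 0 by omega)
    rw [h1] at h3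
    omega
  rcases lt_or_gt_of_ne hxy with hlt | hlt
  · refine ⟨x, hx, y, hy, hlt, ?_⟩
    have : ((y - x : ℕ) : ℝ) ≤ D := by exact_mod_cast key x y he hlt
    linarith
  · refine ⟨y, hy, x, hx, hlt, ?_⟩
    have : ((x - y : ℕ) : ℝ) ≤ D := by exact_mod_cast key y x he.symm hlt
    linarith

private theorem count_bound (N : ℕ) (L : Finset ℕ) (hL : L ⊆ Icc 1 N) (g τ : ℝ) (hτ : 0 ≤ τ)
    (hrec : ∀ l ∈ L, nn ((l : ℝ) * g) ≤ τ) (q : ℕ) (hq : 1 ≤ q) (c : ℤ) (b : ℝ)
    (hb : b = q * g - c) (hb0 : b ≠ 0) (hb2 : |b| ≤ 2 * τ) :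
    (L.card : ℝ) / q ≤ ((N : ℝ) / q * |b| + 2 * τ + 1) * (4 * τ / |b|) := by
  have hq0 : (0 : ℝ) < q := by exact_mod_cast hq
  have hbp : 0 < |b| := abs_pos.mpr hb0
  obtain ⟨u, hu, hcu⟩ := exists_le_card_fiber_of_nsmul_le_card_of_maps_to (s := L) (t := range q)
    (f := fun l => l % q) (b := (L.card : ℝ) / q) (by
      intro l _
      exact mem_range.mpr (Nat.mod_lt l hq)) ⟨0, mem_range.mpr hq⟩ (by
      rw [card_range, nsmul_eq_mul]
      exact le_of_eq (mul_div_cancel₀ _ hq0.ne'))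
  set Lu := L.filter (fun l => l % q = u) with hLu
  let nf : ℕ → ℤ := fun l => round ((l : ℝ) * g) - ((l / q : ℕ) : ℤ) * c
  have hnf : ∀ l ∈ Lu, |(u : ℝ) * g + ((l / q : ℕ) : ℝ) * b - nf l| ≤ τ := by
    intro l hl
    rw [hLu, mem_filter] at hl
    have h1 := hrec l hl.1
    have h2 : (l : ℝ) = u + q * ((l / q : ℕ) : ℝ) := by
      have h3 := Nat.div_add_mod l q
      rw [hl.2] at h3
      have h4 : ((q * (l / q) + u : ℕ) : ℝ) = (l : ℝ) := by rw [h3]
      rw [Nat.cast_add, Nat.cast_mul] at h4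
      linarith
    have h5 : (u : ℝ) * g + ((l / q : ℕ) : ℝ) * b - nf l = (l : ℝ) * g - round ((l : ℝ) * g) := by
      simp only [nf, Int.cast_sub, Int.cast_mul, Int.cast_natCast]
      rw [hb]
      have : (l : ℝ) * g = (u + q * ((l / q : ℕ) : ℝ)) * g := by rw [← h2]
      linarith
    rw [h5]
    exact h1
  have hfib : ∀ n ∈ Lu.image nf, (((Lu.filter (fun l => nf l = n)).card : ℕ) : ℝ) ≤ 4 * τ / |b| := by
    intro n hn
    have hinj : (Lu.filter (fun l => nf l = n)).card
        = ((Lu.filter (fun l => nf l = n)).image (fun l => ((l / q : ℕ) : ℤ))).card := by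
      symm
      apply card_image_of_injOn
      intro l hl l' hl' he
      simp only [coe_filter, Set.mem_ofPred_eq] at hl hl'
      have h1 := (mem_filter.mp hl.1).2
      have h2 := (mem_filter.mp hl'.1).2
      have h3 := Nat.div_add_mod l q
      have h4 := Nat.div_add_mod l' q
      have h5 : l / q = l' / q := by
        have he' : ((l / q : ℕ) : ℤ) = ((l' / q : ℕ) : ℤ) := he
        exact_mod_cast he'
      rw [h1, h5] at h3
      rw [h2] at h4
      omega
    rw [hinj]
    have h6 := card_diam ((Lu.filter (fun l => nf l = n)).image (fun l => ((l / q : ℕ) : ℤ)))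
      (2 * τ / |b|) (by positivity) (by
        intro x hx y hy
        rw [mem_image] at hx hy
        obtain ⟨l, hl, rfl⟩ := hx
        obtain ⟨l', hl', rfl⟩ := hy
        rw [mem_filter] at hl hl'
        have h7 := hnf l hl.1
        have h8 := hnf l' hl'.1
        rw [hl.2] at h7
        rw [hl'.2] at h8
        rw [le_div_iff₀ hbp]
        have h9 : |(((l / q : ℕ) : ℝ) - ((l' / q : ℕ) : ℝ)) * b| ≤ 2 * τ := by
          have e1 : (((l / q : ℕ) : ℝ) - ((l' / q : ℕ) : ℝ)) * b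
            = ((u : ℝ) * g + ((l / q : ℕ) : ℝ) * b - n) - ((u : ℝ) * g + ((l' / q : ℕ) : ℝ) * b - n) := by
            ring
          rw [e1]
          refine (abs_sub _ _).trans ?_
          linarith
        rw [abs_mul] at h9
        rw [Int.cast_natCast, Int.cast_natCast]
        exact le_trans (mul_le_mul_of_nonneg_right (le_abs_self _) hbp.le) h9)
    refine h6.trans ?_
    have h10 : 1 ≤ 2 * τ / |b| := by
      rw [le_div_iff₀ hbp]
      linarith
    have h11 : 4 * τ / |b| = 2 * τ / |b| + 2 * τ / |b| := by ring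
    rw [h11]
    linarith
  have him : ((Lu.image nf).card : ℝ) ≤ (N : ℝ) / q * |b| + 2 * τ + 1 := by
    apply card_diam _ _ (by positivity)
    intro x hx y hy
    rw [mem_image] at hx hy
    obtain ⟨l, hl, rfl⟩ := hx
    obtain ⟨l', hl', rfl⟩ := hy
    have h7 := hnf l hl
    have h8 := hnf l' hl'
    rw [abs_le] at h7 h8
    have hlN : ∀ l ∈ Lu, ((l / q : ℕ) : ℝ) ≤ (N : ℝ) / q := by
      intro l hl
      have h1 := (mem_Icc.mp (hL (mem_filter.mp hl).1)).2
      have h2 : ((l / q : ℕ) : ℝ) ≤ (l : ℝ) / q := Nat.cast_div_le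
      have h3 : (l : ℝ) ≤ N := by exact_mod_cast h1
      exact h2.trans (div_le_div_of_nonneg_right h3 hq0.le)
    have h9 : (((l / q : ℕ) : ℝ) - ((l' / q : ℕ) : ℝ)) * b ≤ (N : ℝ) / q * |b| := by
      have h10 : |((l / q : ℕ) : ℝ) - ((l' / q : ℕ) : ℝ)| ≤ (N : ℝ) / q := by
        rw [abs_le]
        have h11 := hlN l hl
        have h12 := hlN l' hl'
        have h13 : (0 : ℝ) ≤ ((l / q : ℕ) : ℝ) := Nat.cast_nonneg _
        have h14 : (0 : ℝ) ≤ ((l' / q : ℕ) : ℝ) := Nat.cast_nonneg _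
        constructor <;> linarith
      calc (((l / q : ℕ) : ℝ) - ((l' / q : ℕ) : ℝ)) * b
          ≤ |(((l / q : ℕ) : ℝ) - ((l' / q : ℕ) : ℝ)) * b| := le_abs_self _
        _ = |((l / q : ℕ) : ℝ) - ((l' / q : ℕ) : ℝ)| * |b| := abs_mul _ _
        _ ≤ (N : ℝ) / q * |b| := mul_le_mul_of_nonneg_right h10 hbp.le
    linarith [h7.1, h7.2, h8.1, h8.2]
  calc (L.card : ℝ) / q ≤ (Lu.card : ℝ) := hcu
    _ = ∑ n ∈ Lu.image nf, (((Lu.filter (fun l => nf l = n)).card : ℕ) : ℝ) := by
        rw [card_eq_sum_card_image nf Lu]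
        push_cast
        rfl
    _ ≤ ∑ _n ∈ Lu.image nf, (4 * τ / |b|) := sum_le_sum hfib
    _ = ((Lu.image nf).card : ℝ) * (4 * τ / |b|) := by rw [sum_const, nsmul_eq_mul]
    _ ≤ _ := mul_le_mul_of_nonneg_right him (by positivity)

theorem recur (N : ℕ) (L : Finset ℕ) (hL : L ⊆ Icc 1 N) (g τ ν : ℝ) (hν : 0 < ν)
    (hcard : ν * N ≤ (L.card : ℝ)) (h2 : 2 ≤ ν * N) (hτν : 16 * τ ≤ ν)
    (hrec : ∀ l ∈ L, nn ((l : ℝ) * g) ≤ τ) :
    ∃ q : ℕ, 1 ≤ q ∧ (q : ℝ) ≤ 2 / ν ∧ nn ((q : ℝ) * g) ≤ 32 * τ / (ν ^ 2 * N) := by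
  obtain ⟨l, hl, l', hl', hlt, hq2⟩ := exists_pair N L hL ν hν hcard h2
  have hτ : 0 ≤ τ := (nn_nonneg _).trans (hrec l hl)
  have hN0 : (0 : ℝ) < N := by
    by_contra hcon
    have : (N : ℝ) = 0 := le_antisymm (not_lt.mp hcon) (Nat.cast_nonneg N)
    rw [this] at h2
    linarith
  have hν1 : ν ≤ 1 := by
    have h3 : L.card ≤ N := by
      have := card_le_card hL
      simpa using this
    have h4 : ν * N ≤ 1 * N := by
      rw [one_mul]
      exact hcard.trans (by exact_mod_cast h3)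
    exact le_of_mul_le_mul_right h4 hN0
  set q := l' - l with hq
  have hq1 : 1 ≤ q := by omega
  have hq0 : (0 : ℝ) < q := by exact_mod_cast hq1
  set c : ℤ := round ((l' : ℝ) * g) - round ((l : ℝ) * g) with hc
  set b : ℝ := q * g - c with hb
  have hqr : (q : ℝ) = (l' : ℝ) - l := by
    rw [hq, Nat.cast_sub hlt.le]
  have hb2 : |b| ≤ 2 * τ := by
    have h3 := hrec l hl
    have h4 := hrec l' hl'
    unfold nn at h3 h4
    have e1 : b = ((l' : ℝ) * g - round ((l' : ℝ) * g)) - ((l : ℝ) * g - round ((l : ℝ) * g)) := by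
      rw [hb, hqr, hc]
      push_cast
      ring
    rw [e1]
    refine (abs_sub _ _).trans ?_
    linarith
  have hnb : nn ((q : ℝ) * g) ≤ |b| := nn_le _ c
  refine ⟨q, hq1, hq2, ?_⟩
  by_cases hb0 : b = 0
  · rw [hb0, abs_zero] at hnb
    exact hnb.trans (by positivity)
  · have hbp : 0 < |b| := abs_pos.mpr hb0
    have h3 := count_bound N L hL g τ hτ hrec q hq1 c b hb hb0 hb2
    have h4 : ν * N / q ≤ (L.card : ℝ) / q := div_le_div_of_nonneg_right hcard hq0.le
    have h5 : ((N : ℝ) / q * |b| + 2 * τ + 1) * (4 * τ / |b|) ≤ ((N : ℝ) / q * |b| + 2) * (4 * τ / |b|) := by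
      apply mul_le_mul_of_nonneg_right _ (by positivity)
      linarith
    have h6 : ((N : ℝ) / q * |b| + 2) * (4 * τ / |b|) = 4 * τ * (N / q) + 8 * τ / |b| := by
      field_simp
      ring
    have h7 : ν * N / q ≤ 4 * τ * (N / q) + 8 * τ / |b| := by
      rw [← h6]
      exact h4.trans (h3.trans h5)
    have h8 : 4 * τ * (N / q) ≤ ν / 4 * (N / q) := by
      apply mul_le_mul_of_nonneg_right _ (by positivity)
      linarith
    have h9 : ν * N / q = ν * (N / q) := by ring
    have h10 : 3 / 4 * ν * (N / q) ≤ 8 * τ / |b| := by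
      rw [h9] at h7
      linarith
    have h11 : 3 / 4 * ν * (N / q) * |b| ≤ 8 * τ := by
      rwa [le_div_iff₀ hbp] at h10
    have h12 : 3 / 4 * ν * N * |b| ≤ 8 * τ * q := by
      have := mul_le_mul_of_nonneg_right h11 hq0.le
      have e1 : 3 / 4 * ν * (N / q) * |b| * q = 3 / 4 * ν * N * |b| := by
        field_simp
      rw [e1] at this
      exact this
    have h13 : ν * q ≤ 2 := by
      have := mul_le_mul_of_nonneg_left hq2 hν.le
      have e1 : ν * (2 / ν) = 2 := by field_simp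
      rw [e1] at this
      exact this
    refine hnb.trans ?_
    rw [le_div_iff₀ (by positivity)]
    have h14 : 3 / 4 * (|b| * (ν ^ 2 * N)) ≤ 8 * τ * 2 := by
      calc 3 / 4 * (|b| * (ν ^ 2 * N)) = ν * (3 / 4 * ν * N * |b|) := by ring
        _ ≤ ν * (8 * τ * q) := mul_le_mul_of_nonneg_left h12 hν.le
        _ = 8 * τ * (ν * q) := by ring
        _ ≤ 8 * τ * 2 := mul_le_mul_of_nonneg_left h13 (by positivity)
    linarith

end Pool.Agent.H26.LDP
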