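import Pool.Agent.H26.LDP.Defs

/-!
# Three elementary bounds

`prodUp`: prod (1+1/p) <= exp(sum 1/p), and the sum over p <= 2^(k+1) of 1/p is at most 1/2 + (3/log 2) H_k
(`dyadic_zero`, after helper6).

`chebA`: A M X <= primeCounting (3X) and Chebyshev.pi_le_log4_mul_div.

`lcmBound`: if every 1 <= q <= Q divides W >= 1 then lcmUpto Q divides W, and 2^Q <= (Q+1) lcmUpto Q.
-/

namespace Pool.Agent.H26.LDP

open Finset

theorem log_four_le : Real.log 4 ≤ 1.4 := by
  have h : Real.log 4 = 2 * Real.log 2 := by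
    have : (4 : ℝ) = 2 ^ 2 := by norm_num
    rw [this, Real.log_pow]
    norm_num
  rw [h]
  have := Real.log_two_lt_d9
  linarith

theorem dyadic (u : ℕ) (hu : 2 ≤ u) :
    ∑ q ∈ (Ioc u (2 * u)).filter Nat.Prime, (1 : ℝ) / q ≤ 3 / Real.log u := by
  have hu' : (2 : ℝ) ≤ u := by exact_mod_cast hu
  have hlog : 0 < Real.log u := Real.log_pos (by linarith)
  have h1 : ∑ q ∈ (Ioc u (2 * u)).filter Nat.Prime, (1 : ℝ) / q ≤
      ∑ q ∈ (Ioc u (2 * u)).filter Nat.Prime, Real.log q / (u * Real.log u) := by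
    apply Finset.sum_le_sum
    intro q hq
    rw [mem_filter, mem_Ioc] at hq
    have hq' : (u : ℝ) < q := by exact_mod_cast hq.1.1
    rw [div_le_div_iff₀ (by linarith) (by positivity), one_mul]
    have h2 : Real.log u ≤ Real.log q := Real.log_le_log (by linarith) hq'.le
    calc (u : ℝ) * Real.log u ≤ q * Real.log q := by
          apply mul_le_mul hq'.le h2 hlog.le (by linarith)
      _ = Real.log q * q := by ring
  refine h1.trans ?_
  rw [← Finset.sum_div, div_le_div_iff₀ (by positivity) hlog]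
  have h3 : ∑ q ∈ (Ioc u (2 * u)).filter Nat.Prime, Real.log q ≤ Real.log 4 * (2 * u) := by
    have h4 := Chebyshev.theta_le_log4_mul_x (x := ((2 * u : ℕ) : ℝ)) (by positivity)
    unfold Chebyshev.theta at h4
    rw [Nat.floor_natCast] at h4
    push_cast at h4
    refine le_trans ?_ h4
    apply Finset.sum_le_sum_of_subset_of_nonneg
    · intro q hq
      rw [mem_filter, mem_Ioc] at hq ⊢
      exact ⟨⟨by omega, hq.1.2⟩, hq.2⟩
    · intro q hq _
      rw [mem_filter, mem_Ioc] at hq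
      exact Real.log_nonneg (by exact_mod_cast hq.1.1)
  have h5 : ∑ q ∈ (Ioc u (2 * u)).filter Nat.Prime, Real.log q ≤ 3 * u := by
    have := log_four_le
    nlinarith
  calc (∑ q ∈ (Ioc u (2 * u)).filter Nat.Prime, Real.log q) * Real.log u ≤ 3 * u * Real.log u :=
        mul_le_mul_of_nonneg_right h5 hlog.le
    _ = 3 * (u * Real.log u) := by ring

theorem dyadic_zero (k : ℕ) :
    ∑ q ∈ (Ioc 0 (2 ^ (k + 1))).filter Nat.Prime, (1 : ℝ) / q ≤
      1 / 2 + 3 / Real.log 2 * (harmonic k : ℝ) := by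
  induction k with
  | zero =>
    have : (Ioc 0 (2 ^ (0 + 1))).filter Nat.Prime = {2} := by decide
    rw [this]
    simp
  | succ k ih =>
    have h1 : (0 : ℕ) ≤ 2 ^ (k + 1) := Nat.zero_le _
    have e : (Ioc 0 (2 ^ (k + 1 + 1))).filter Nat.Prime = (Ioc 0 (2 ^ (k + 1))).filter Nat.Prime ∪
        (Ioc (2 ^ (k + 1)) (2 * (2 ^ (k + 1)))).filter Nat.Prime := by
      rw [← filter_union]
      congr 1
      rw [Ioc_union_Ioc_eq_Ioc h1 (by omega)]
      congr 1
      ring
    have h2 : 2 ≤ 2 ^ (k + 1) := by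
      rw [pow_succ]
      have : 1 ≤ 2 ^ k := Nat.one_le_two_pow
      omega
    rw [e, sum_union]
    · have h3 := dyadic (2 ^ (k + 1)) h2
      rw [harmonic_succ]
      push_cast at h3 ⊢
      rw [Real.log_pow] at h3
      have h4 : 3 / (((k + 1 : ℕ) : ℝ) * Real.log 2) = 3 / Real.log 2 * ((k : ℝ) + 1)⁻¹ := by
        have : 0 < Real.log 2 := Real.log_pos (by norm_num)
        push_cast
        field_simp
      rw [h4] at h3
      rw [mul_add]
      linarith
    · apply disjoint_filter_filter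
      rw [disjoint_left]
      intro q hq hq'
      rw [mem_Ioc] at hq hq'
      omega

theorem prodUp : ∃ K : ℝ, 0 < K ∧ ∀ j : ℕ,
    ∏ p ∈ (Icc 1 (2 ^ (64 + 24 * j))).filter Nat.Prime, (1 + 1 / (p : ℝ)) ≤ K * 2 ^ j := by
  -- (63 + 24 j)^5 / 2^j is bounded
  have hb : ∃ B : ℝ, ∀ j : ℕ, (63 + 24 * (j : ℝ)) ^ 5 / 2 ^ j ≤ B := by
    have h1 : Filter.Tendsto (fun j : ℕ => ((j : ℝ)) ^ 5 / 2 ^ j) Filter.atTop (nhds 0) :=
      tendsto_pow_const_div_const_pow_of_one_lt 5 (by norm_num)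
    obtain ⟨B, hB⟩ := h1.bddAbove_range
    have hB' : ∀ j : ℕ, ((j : ℝ)) ^ 5 / 2 ^ j ≤ B := fun j => hB ⟨j, rfl⟩
    refine ⟨63 ^ 5 + 87 ^ 5 * B, fun j => ?_⟩
    rcases Nat.eq_zero_or_pos j with h | h
    · subst h
      have := hB' 0
      norm_num at this ⊢
      nlinarith
    · have hj : (1 : ℝ) ≤ j := by exact_mod_cast h
      have h2 : (63 + 24 * (j : ℝ)) ^ 5 ≤ (87 * j) ^ 5 := by
        apply pow_le_pow_left₀ (by positivity)
        linarith
      have h3 := hB' j
      calc (63 + 24 * (j : ℝ)) ^ 5 / 2 ^ j ≤ (87 * j) ^ 5 / 2 ^ j := by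
            apply div_le_div_of_nonneg_right h2 (by positivity)
        _ = 87 ^ 5 * ((j : ℝ) ^ 5 / 2 ^ j) := by ring
        _ ≤ 87 ^ 5 * B := by apply mul_le_mul_of_nonneg_left h3 (by positivity)
        _ ≤ _ := by norm_num
  obtain ⟨B, hB⟩ := hb
  have hB0 : 0 < B := by
    have := hB 0
    norm_num at this
    linarith
  refine ⟨Real.exp 6 * B, by positivity, fun j => ?_⟩
  have h1 : ∏ p ∈ (Icc 1 (2 ^ (64 + 24 * j))).filter Nat.Prime, (1 + 1 / (p : ℝ)) ≤
      Real.exp (∑ p ∈ (Icc 1 (2 ^ (64 + 24 * j))).filter Nat.Prime, 1 / (p : ℝ)) := by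
    rw [Real.exp_sum]
    apply Finset.prod_le_prod
    · intro p _
      positivity
    · intro p _
      have := Real.add_one_le_exp (1 / (p : ℝ))
      linarith
  have h2 : ∑ p ∈ (Icc 1 (2 ^ (64 + 24 * j))).filter Nat.Prime, 1 / (p : ℝ) ≤
      6 + 5 * Real.log (63 + 24 * j) := by
    have h3 := dyadic_zero (63 + 24 * j)
    have h4 : (Ioc 0 (2 ^ (63 + 24 * j + 1))) = Icc 1 (2 ^ (64 + 24 * j)) := by
      ext x
      rw [mem_Ioc, mem_Icc]
      have : 63 + 24 * j + 1 = 64 + 24 * j := by ring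
      rw [this]
      omega
    rw [h4] at h3
    have h6 := harmonic_le_one_add_log (63 + 24 * j)
    push_cast at h6
    have hl2 := Real.log_two_gt_d9
    have h10 : 3 / Real.log 2 ≤ 5 := by
      rw [div_le_iff₀ (by linarith)]
      linarith
    have h12 : 0 ≤ Real.log (63 + 24 * (j : ℝ)) := by
      apply Real.log_nonneg
      have : (0 : ℝ) ≤ j := Nat.cast_nonneg j
      linarith
    have h13 : (0 : ℝ) < 3 / Real.log 2 := by positivity
    have h14 : 3 / Real.log 2 * (harmonic (63 + 24 * j) : ℝ) ≤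
        5 * (1 + Real.log (63 + 24 * (j : ℝ))) := by
      calc 3 / Real.log 2 * (harmonic (63 + 24 * j) : ℝ) ≤
            3 / Real.log 2 * (1 + Real.log (63 + 24 * (j : ℝ))) :=
            mul_le_mul_of_nonneg_left h6 h13.le
        _ ≤ _ := mul_le_mul_of_nonneg_right h10 (by linarith)
    linarith
  have hpos : (0 : ℝ) < 63 + 24 * j := by positivity
  calc _ ≤ Real.exp (∑ p ∈ (Icc 1 (2 ^ (64 + 24 * j))).filter Nat.Prime, 1 / (p : ℝ)) := h1
    _ ≤ Real.exp (6 + 5 * Real.log (63 + 24 * j)) := Real.exp_le_exp.2 h2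
    _ = Real.exp 6 * (63 + 24 * (j : ℝ)) ^ 5 := by
      rw [Real.exp_add, mul_comm 5 (Real.log _), Real.exp_mul, Real.exp_log hpos]
      norm_num
    _ ≤ Real.exp 6 * (B * 2 ^ j) := by
      apply mul_le_mul_of_nonneg_left _ (Real.exp_pos 6).le
      have := hB j
      rwa [div_le_iff₀ (by positivity)] at this
    _ = _ := by ring

theorem chebA : ∃ K : ℝ, 0 < K ∧ ∀ M X : ℕ, 2 ≤ X → (A M X : ℝ) ≤ K * X / Real.log X := by
  refine ⟨24, by norm_num, fun M X hX => ?_⟩
  have hX' : (2 : ℝ) ≤ X := by exact_mod_cast hX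
  have hX0 : (0 : ℝ) < X := by linarith
  have hlog : 0 < Real.log X := Real.log_pos (by linarith)
  have h1 : (A M X : ℝ) ≤ Nat.primeCounting (3 * X) := by
    unfold A
    rw [Nat.primeCounting, Nat.primeCounting', Nat.count_eq_card_filter_range]
    have : ((Ioc M (3 * X)).filter Nat.Prime).card ≤ ((range (3 * X + 1)).filter Nat.Prime).card := by
      apply card_le_card
      intro p hp
      rw [mem_filter, mem_Ioc] at hp
      rw [mem_filter, mem_range]
      exact ⟨by omega, hp.2⟩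
    exact_mod_cast this
  have h2 := Chebyshev.pi_le_log4_mul_div (x := ((3 * X : ℕ) : ℝ)) (by push_cast; linarith)
  rw [Nat.floor_natCast] at h2
  push_cast at h2
  have h3 : Real.log (√(3 * (X : ℝ))) = Real.log (3 * X) / 2 := Real.log_sqrt (by positivity)
  have h4 : Real.log X ≤ Real.log (3 * X) := Real.log_le_log hX0 (by linarith)
  have h5 : Real.log 4 * (3 * X) / Real.log (√(3 * (X : ℝ))) ≤ 9 * X / Real.log X := by
    rw [h3, div_div_eq_mul_div]
    have := log_four_le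
    have hl : 0 < Real.log (3 * (X : ℝ)) := by linarith
    calc Real.log 4 * (3 * X) * 2 / Real.log (3 * X) ≤ Real.log 4 * (3 * X) * 2 / Real.log X := by
          apply div_le_div_of_nonneg_left _ hlog h4
          have : 0 < Real.log 4 := Real.log_pos (by norm_num)
          positivity
      _ ≤ 9 * X / Real.log X := by
          apply div_le_div_of_nonneg_right _ hlog.le
          nlinarith
  have h6 : √(3 * (X : ℝ)) ≤ 15 * X / Real.log X := by
    rw [le_div_iff₀ hlog]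
    have h7 : Real.log X ≤ 2 * √(X : ℝ) := by
      have h8 := Real.log_le_sub_one_of_pos (x := √(X : ℝ)) (Real.sqrt_pos.2 hX0)
      rw [Real.log_sqrt hX0.le] at h8
      linarith
    have h9 : √(3 * (X : ℝ)) ≤ 2 * √(X : ℝ) := by
      rw [Real.sqrt_le_left (by positivity)]
      rw [mul_pow, Real.sq_sqrt hX0.le]
      linarith
    have h10 : √(X : ℝ) * √(X : ℝ) = X := Real.mul_self_sqrt hX0.le
    calc √(3 * (X : ℝ)) * Real.log X ≤ (2 * √(X : ℝ)) * (2 * √(X : ℝ)) := by
          apply mul_le_mul h9 h7 hlog.le (by positivity)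
      _ = 4 * (√(X : ℝ) * √(X : ℝ)) := by ring
      _ = 4 * X := by rw [h10]
      _ ≤ 15 * X := by linarith
  calc (A M X : ℝ) ≤ _ := h1
    _ ≤ _ := h2
    _ ≤ 9 * X / Real.log X + 15 * X / Real.log X := add_le_add h5 h6
    _ = 24 * X / Real.log X := by ring

theorem lcmBound (Q W : ℕ) (hW : 1 ≤ W) (h : ∀ q : ℕ, 1 ≤ q → q ≤ Q → q ∣ W) :
    2 ^ Q ≤ (Q + 1) * W := by
  have h1 := Chebyshev.two_pow_le_mul_lcmUpto Q
  have h2 : Nat.lcmUpto Q ∣ W := by
    unfold Nat.lcmUpto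
    apply Finset.lcm_dvd
    intro q hq
    rw [mem_Icc] at hq
    exact h q hq.1 hq.2
  calc 2 ^ Q ≤ (Q + 1) * Nat.lcmUpto Q := h1
    _ ≤ (Q + 1) * W := Nat.mul_le_mul_left _ (Nat.le_of_dvd hW h2)

end Pool.Agent.H26.LDP
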