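import Pool.Agent.H26.LDP.Defs

/-!
# Translates of the major arcs by rough fractions are disjoint

Proof of `disj`. Maj gives q, q' in [1,Q] and integers a, a' with |x - c/r - a/q| <= w and |x - c'/r' - a'/q'| <= w.
So |c/r + a/q - c'/r' - a'/q'| <= 2 w. Multiply by r r' q q' <= (Q R)^2: the integer
c r' q q' + a r r' q' - c' r q q' - a' r r' q has absolute value <= 2 w (Q R)^2 < 1, so it is 0. Hence
r r' divides (c r' - c' r) q q'. All primes dividing r r' exceed Q, and those dividing q q' are <= Q, so r r' is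
coprime to q q' and r r' divides c r' - c' r. So r | c r', r | r' (c coprime to r), similarly r' | r, r = r',
and then r^2 | (c - c') r, r | c - c', c = c'.
-/

namespace Pool.Agent.H26.LDP

open Finset

theorem coprime_rough {Q R r q : ℕ} (hr : r ∈ rough Q R) (hq1 : 1 ≤ q) (hq : q ≤ Q) :
    Nat.Coprime r q := by
  obtain ⟨-, -, hp⟩ := mem_rough.1 hr
  apply Nat.Coprime.symm
  by_contra hcon
  obtain ⟨p, pp, h1, h2⟩ := Nat.Prime.not_coprime_iff_dvd.1 hcon
  have h3 := hp p pp h2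
  have h4 := Nat.le_of_dvd hq1 h1
  omega

theorem disj (Q R : ℕ) (w x : ℝ) (hw : 2 * w * ((Q : ℝ) * R) ^ 2 < 1) (r r' c c' : ℕ)
    (hr : r ∈ rough Q R) (hr' : r' ∈ rough Q R) (hc : c < r) (hc' : c' < r')
    (hcr : Nat.Coprime c r) (hcr' : Nat.Coprime c' r')
    (h : Maj Q w (x - (c : ℝ) / r)) (h' : Maj Q w (x - (c' : ℝ) / r')) : r = r' ∧ c = c' := by
  obtain ⟨q, hq1, hqQ, a, ha⟩ := h
  obtain ⟨q', hq1', hqQ', a', ha'⟩ := h'
  have hrR := (mem_rough.1 hr).1
  have hrR' := (mem_rough.1 hr').1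
  have hr0 : (r : ℝ) ≠ 0 := by
    have := hrR.1
    positivity
  have hr0' : (r' : ℝ) ≠ 0 := by
    have := hrR'.1
    positivity
  have hq0 : (q : ℝ) ≠ 0 := by positivity
  have hq0' : (q' : ℝ) ≠ 0 := by positivity
  have hw0 : 0 ≤ w := le_trans (abs_nonneg _) ha
  -- the integer
  have hZ : (c : ℤ) * r' * q * q' + a * r * r' * q' - c' * r * q * q' - a' * r * r' * q = 0 := by
    rw [← Int.abs_lt_one_iff]
    have h1 : |(c : ℝ) / r + a / q - c' / r' - a' / q'| ≤ 2 * w := by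
      have h2 : (c : ℝ) / r + a / q - c' / r' - a' / q' =
          (x - (c' : ℝ) / r' - a' / q') - (x - (c : ℝ) / r - a / q) := by ring
      rw [h2]
      calc |(x - (c' : ℝ) / r' - a' / q') - (x - (c : ℝ) / r - a / q)|
          ≤ |x - (c' : ℝ) / r' - a' / q'| + |x - (c : ℝ) / r - a / q| := abs_sub _ _
        _ ≤ 2 * w := by linarith
    have h3 : (((c : ℤ) * r' * q * q' + a * r * r' * q' - c' * r * q * q' - a' * r * r' * q : ℤ) : ℝ)
        = ((q : ℝ) * r) * (q' * r') * ((c : ℝ) / r + a / q - c' / r' - a' / q') := by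
      push_cast
      field_simp
    have h4 : ((q : ℝ) * r) * (q' * r') ≤ ((Q : ℝ) * R) ^ 2 := by
      rw [sq]
      have e1 : (q : ℝ) * r ≤ (Q : ℝ) * R := by
        have : q * r ≤ Q * R := Nat.mul_le_mul hqQ hrR.2
        exact_mod_cast this
      have e2 : (q' : ℝ) * r' ≤ (Q : ℝ) * R := by
        have : q' * r' ≤ Q * R := Nat.mul_le_mul hqQ' hrR'.2
        exact_mod_cast this
      exact mul_le_mul e1 e2 (by positivity) (by positivity)
    have h5 : |(((c : ℤ) * r' * q * q' + a * r * r' * q' - c' * r * q * q' - a' * r * r' * q : ℤ) : ℝ)|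
        < 1 := by
      rw [h3, abs_mul, abs_of_nonneg (by positivity : (0 : ℝ) ≤ ((q : ℝ) * r) * (q' * r'))]
      calc ((q : ℝ) * r) * (q' * r') * |(c : ℝ) / r + a / q - c' / r' - a' / q'|
          ≤ ((Q : ℝ) * R) ^ 2 * (2 * w) := mul_le_mul h4 h1 (abs_nonneg _) (by positivity)
        _ < 1 := by linarith
    exact_mod_cast h5
  have hcop : IsCoprime ((r : ℤ) * r') ((q : ℤ) * q') := by
    have e1 : IsCoprime (r : ℤ) (q : ℤ) := Nat.isCoprime_iff_coprime.2 (coprime_rough hr hq1 hqQ)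
    have e2 : IsCoprime (r : ℤ) (q' : ℤ) := Nat.isCoprime_iff_coprime.2 (coprime_rough hr hq1' hqQ')
    have e3 : IsCoprime (r' : ℤ) (q : ℤ) := Nat.isCoprime_iff_coprime.2 (coprime_rough hr' hq1 hqQ)
    have e4 : IsCoprime (r' : ℤ) (q' : ℤ) :=
      Nat.isCoprime_iff_coprime.2 (coprime_rough hr' hq1' hqQ')
    exact IsCoprime.mul_left (IsCoprime.mul_right e1 e2) (IsCoprime.mul_right e3 e4)
  have hdvd : ((r : ℤ) * r') ∣ ((c : ℤ) * r' - c' * r) := by
    apply hcop.dvd_of_dvd_mul_right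
    refine ⟨a' * q - a * q', ?_⟩
    linear_combination hZ
  have hrr' : r ∣ r' := by
    have e1 : (r : ℤ) ∣ (c : ℤ) * r' - c' * r := (Dvd.intro _ rfl).trans hdvd
    have e2 : (r : ℤ) ∣ (c : ℤ) * r' := (dvd_sub_left (Dvd.intro_left _ rfl)).1 e1
    have e3 : IsCoprime (r : ℤ) (c : ℤ) := Nat.isCoprime_iff_coprime.2 hcr.symm
    exact Int.natCast_dvd_natCast.1 (e3.dvd_of_dvd_mul_left e2)
  have hr'r : r' ∣ r := by
    have e1 : (r' : ℤ) ∣ (c : ℤ) * r' - c' * r := (Dvd.intro_left _ rfl).trans hdvd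
    have e2 : (r' : ℤ) ∣ (c' : ℤ) * r := (dvd_sub_right (Dvd.intro_left _ rfl)).1 e1
    have e3 : IsCoprime (r' : ℤ) (c' : ℤ) := Nat.isCoprime_iff_coprime.2 hcr'.symm
    exact Int.natCast_dvd_natCast.1 (e3.dvd_of_dvd_mul_left e2)
  have hEq : r = r' := Nat.dvd_antisymm hrr' hr'r
  subst hEq
  refine ⟨rfl, ?_⟩
  obtain ⟨k, hk⟩ := hdvd
  have hrpos : (0 : ℤ) < r := by
    have := hrR.1
    omega
  have hk2 : (c : ℤ) - c' = r * k := by
    have : (r : ℤ) * ((c : ℤ) - c') = r * (r * k) := by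
      linear_combination hk
    exact mul_left_cancel₀ hrpos.ne' this
  have hk0 : k = 0 := by
    by_contra hk0
    rcases lt_or_gt_of_ne hk0 with hneg | hpos
    · have : (r : ℤ) * k ≤ r * (-1) := mul_le_mul_of_nonneg_left (by omega) hrpos.le
      omega
    · have : (r : ℤ) * 1 ≤ r * k := mul_le_mul_of_nonneg_left (by omega) hrpos.le
      omega
  rw [hk0, mul_zero] at hk2
  omega

end Pool.Agent.H26.LDP
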