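import Pool.Agent.H26.LDP.Defs

/-!
# Parseval on the grid Z/N
-/

namespace Pool.Agent.H26.LDP

open Finset

theorem e_al (N : ℕ) [NeZero N] (n : ℤ) (t : ZMod N) :
    e ((n : ℝ) * al N t) = ZMod.stdAddChar ((n : ZMod N) * t) := by
  have h1 : (n : ZMod N) * t = ((n * (t.val : ℤ) : ℤ) : ZMod N) := by
    push_cast
    rw [ZMod.natCast_zmod_val]
  rw [h1, ZMod.stdAddChar_coe]
  unfold e al
  congr 1
  push_cast
  ring

theorem sum_e_al (N : ℕ) [NeZero N] (n : ℤ) :
    ∑ t : ZMod N, e ((n : ℝ) * al N t) = if (n : ZMod N) = 0 then (N : ℂ) else 0 := by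
  have h1 := AddChar.sum_mulShift (ψ := ZMod.stdAddChar (N := N)) (n : ZMod N)
    (ZMod.isPrimitive_stdAddChar N)
  rw [ZMod.card] at h1
  calc ∑ t : ZMod N, e ((n : ℝ) * al N t) = ∑ t : ZMod N, ZMod.stdAddChar (t * (n : ZMod N)) := by
        apply sum_congr rfl
        intro t _
        rw [e_al, mul_comm]
    _ = ((if (n : ZMod N) = 0 then N else 0 : ℕ) : ℂ) := h1
    _ = _ := by
        split_ifs <;> simp

theorem parseval (N : ℕ) [NeZero N] (a : ℤ) (L : ℕ) (hL : L ≤ N) (F : ℤ → ℂ) :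
    ∑ t : ZMod N, ‖∑ k ∈ Ico a (a + L), F k * e ((k : ℝ) * al N t)‖ ^ 2 =
      N * ∑ k ∈ Ico a (a + L), ‖F k‖ ^ 2 := by
  have key : ((∑ t : ZMod N, ‖∑ k ∈ Ico a (a + L), F k * e ((k : ℝ) * al N t)‖ ^ 2 : ℝ) : ℂ) =
      ((N * ∑ k ∈ Ico a (a + L), ‖F k‖ ^ 2 : ℝ) : ℂ) := by
    push_cast
    have h1 : ∀ t : ZMod N, ((‖∑ k ∈ Ico a (a + L), F k * e ((k : ℝ) * al N t)‖ : ℝ) : ℂ) ^ 2 =
        ∑ k ∈ Ico a (a + L), ∑ l ∈ Ico a (a + L),
          F k * (starRingEnd ℂ) (F l) * e (((k - l : ℤ) : ℝ) * al N t) := by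
      intro t
      rw [← Complex.mul_conj', map_sum, sum_mul_sum]
      apply sum_congr rfl
      intro k _
      apply sum_congr rfl
      intro l _
      rw [map_mul, ← e_neg]
      have : e (((k - l : ℤ) : ℝ) * al N t) = e ((k : ℝ) * al N t) * e (-((l : ℝ) * al N t)) := by
        rw [← e_add]
        congr 1
        push_cast
        ring
      rw [this]
      ring
    simp_rw [h1]
    rw [sum_comm, mul_sum]
    apply sum_congr rfl
    intro k hk
    rw [sum_comm]
    have h2 : ∀ l ∈ Ico a (a + L), ∑ t : ZMod N, F k * (starRingEnd ℂ) (F l) *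
        e (((k - l : ℤ) : ℝ) * al N t) = if l = k then (N : ℂ) * (F k * (starRingEnd ℂ) (F k)) else 0 := by
      intro l hl
      rw [← mul_sum, sum_e_al]
      rw [mem_Ico] at hk hl
      by_cases h : l = k
      · subst h
        simp
        ring
      · rw [if_neg h, if_neg]
        · simp
        · intro h3
          rw [ZMod.intCast_zmod_eq_zero_iff_dvd] at h3
          apply h
          have h4 : (k - l).natAbs < N := by
            have : (L : ℤ) ≤ N := by exact_mod_cast hL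
            omega
          have h5 := Int.eq_zero_of_abs_lt_dvd h3 (by
            rw [Int.abs_eq_natAbs]
            exact_mod_cast h4)
          omega
    rw [sum_congr rfl h2, sum_ite_eq' (Ico a (a + L)) k, if_pos hk, Complex.mul_conj']
  exact_mod_cast key

/-- adding c (N/r) to t shifts the grid point by c/r modulo 1 -/
theorem al_shift (N r c : ℕ) [NeZero N] (hr : r ∣ N) (t : ZMod N) :
    ∃ n : ℤ, al N (t + ((c * (N / r) : ℕ) : ZMod N)) = al N t + (c : ℝ) / r + n := by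
  have hN : (N : ℝ) ≠ 0 := by
    have := NeZero.ne N
    exact_mod_cast this
  obtain ⟨s, hs⟩ := hr
  have hr0 : r ≠ 0 := by
    intro h
    rw [h, zero_mul] at hs
    exact NeZero.ne N hs
  have hr0' : (r : ℝ) ≠ 0 := by exact_mod_cast hr0
  have hNr : N / r = s := by
    rw [hs]
    exact Nat.mul_div_cancel_left s (Nat.pos_of_ne_zero hr0)
  rw [hNr]
  have h1 : (t + ((c * s : ℕ) : ZMod N)).val = (t.val + c * s) % N := by
    conv_lhs => rw [← ZMod.natCast_zmod_val t, ← Nat.cast_add, ZMod.val_natCast]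
  obtain ⟨D, hD⟩ : ∃ D : ℕ, (t.val + c * s) / N = D := ⟨_, rfl⟩
  refine ⟨-(D : ℤ), ?_⟩
  unfold al
  rw [h1]
  have h2 : (((t.val + c * s) % N : ℕ) : ℝ) = (t.val : ℝ) + c * s - N * D := by
    have h3 := Nat.mod_add_div (t.val + c * s) N
    rw [hD] at h3
    have h4 : (((t.val + c * s) % N + N * D : ℕ) : ℝ) = ((t.val + c * s : ℕ) : ℝ) := by
      rw [h3]
    push_cast at h4 ⊢
    linarith
  have hsN : (N : ℝ) = r * s := by
    rw [hs]
    push_cast
    ring
  have hs0 : (s : ℝ) ≠ 0 := by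
    intro h
    rw [h, mul_zero] at hsN
    exact hN hsN
  rw [h2]
  push_cast
  have h5 : (c : ℝ) * s / N = c / r := by
    rw [hsN]
    field_simp
  rw [sub_div, add_div, h5, mul_div_assoc, mul_comm (N : ℝ), div_mul_cancel₀ _ hN]
  ring

theorem S_add_int (M X : ℕ) (x : ℝ) (n : ℤ) : S M X (x + n) = S M X x := by
  unfold S
  apply sum_congr rfl
  intro m _
  have h : (m : ℝ) * (x + n) = (m : ℝ) * x + ((m * n : ℤ) : ℝ) := by
    push_cast
    ring
  rw [h, e_add_int]

theorem sum_S_sq (M X N : ℕ) [NeZero N] (hN : 3 * X < N) :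
    ∑ t : ZMod N, ‖S M X (al N t)‖ ^ 2 = (N : ℝ) * A M X := by
  have h1 := parseval N 0 (3 * X + 1) (by omega)
    (fun k : ℤ => if (k.toNat ∈ (Ioc M (3 * X)).filter Nat.Prime) then 1 else 0)
  have h2 : Ico (0 : ℤ) (0 + ((3 * X + 1 : ℕ) : ℤ)) = (range (3 * X + 1)).map Nat.castEmbedding := by
    ext k
    rw [mem_Ico, mem_map]
    constructor
    · rintro ⟨h3, h4⟩
      refine ⟨k.toNat, ?_, ?_⟩
      · rw [mem_range]
        omega
      · simp
        omega
    · rintro ⟨m, hm, rfl⟩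
      rw [mem_range] at hm
      simp
      omega
  have hsub : (Ioc M (3 * X)).filter Nat.Prime ⊆ range (3 * X + 1) := by
    intro n hn
    rw [mem_filter, mem_Ioc] at hn
    rw [mem_range]
    omega
  have h3 : ∀ t : ZMod N, S M X (al N t) = ∑ k ∈ Ico (0 : ℤ) (0 + ((3 * X + 1 : ℕ) : ℤ)),
      (if (k.toNat ∈ (Ioc M (3 * X)).filter Nat.Prime) then (1 : ℂ) else 0) * e ((k : ℝ) * al N t) := by
    intro t
    rw [h2, sum_map]
    unfold S
    rw [← sum_subset hsub]
    · apply sum_congr rfl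
      intro n hn
      have : (Nat.castEmbedding n : ℤ).toNat = n := by simp
      rw [this, if_pos hn]
      simp
    · intro n _ hn
      have : (Nat.castEmbedding n : ℤ).toNat = n := by simp
      rw [this, if_neg hn, zero_mul]
  have h4 : ∑ k ∈ Ico (0 : ℤ) (0 + ((3 * X + 1 : ℕ) : ℤ)),
      ‖(if (k.toNat ∈ (Ioc M (3 * X)).filter Nat.Prime) then (1 : ℂ) else 0)‖ ^ 2 = (A M X : ℝ) := by
    rw [h2, sum_map]
    have h5 : ∀ n ∈ range (3 * X + 1),
        ‖(if ((Nat.castEmbedding n : ℤ).toNat ∈ (Ioc M (3 * X)).filter Nat.Prime) then (1 : ℂ) else 0)‖ ^ 2 =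
        if n ∈ (Ioc M (3 * X)).filter Nat.Prime then (1 : ℝ) else 0 := by
      intro n _
      have : (Nat.castEmbedding n : ℤ).toNat = n := by simp
      rw [this]
      split_ifs <;> simp
    rw [sum_congr rfl h5, sum_ite_mem, inter_eq_right.2 hsub]
    simp [A]
  rw [h4] at h1
  rw [← h1]
  apply sum_congr rfl
  intro t _
  rw [h3 t]

end Pool.Agent.H26.LDP
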