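import Pool.Agent.H26.LDP.Lift
import Pool.Agent.H26.LDP.Disj
import Pool.Agent.H26.LDP.Parseval

/-!
# The mass of the prime sum on the major arcs

Proof of `mass`. For r in rough Q R and t in E, `lift` (all n in the sum S are primes > M >= R >= r, so coprime
to r) gives ‖S(t)‖^2 <= r sum*_c ‖S(al t + c/r)‖^2 = r sum*_c ‖S(al (t + c (N/r)))‖^2 (`al_shift`, `S_add_int`).
Divide by r, sum over t in E and over r: the left side of the theorem is at most
sum over triples (r, c, t), r in rough Q R, c < r coprime to r, t in E, of G(t + c (N/r)), G(u) = ‖S(al u)‖^2.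
The map (r,c,t) -> t + c (N/r) is injective on these triples: if the value is u then al u - c/r = al t + integer,
so Maj Q w (al u - c/r) (Maj is 1-periodic), and `disj` with x = al u gives r = r', c = c', hence t = t'.
So the sum is at most sum over all u of G(u) = N * A (`sum_S_sq`).
-/

namespace Pool.Agent.H26.LDP

open Finset

/-- the major arcs are invariant under integer translations -/
theorem maj_add_int {Q : ℕ} {w x : ℝ} (h : Maj Q w x) (n : ℤ) : Maj Q w (x + n) := by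
  obtain ⟨q, hq1, hqQ, a, ha⟩ := h
  refine ⟨q, hq1, hqQ, a + n * q, ?_⟩
  have hq0 : (q : ℝ) ≠ 0 := by
    have : (1 : ℝ) ≤ q := by exact_mod_cast hq1
    positivity
  have h1 : x + n - ((a + n * q : ℤ) : ℝ) / q = x - a / q := by
    push_cast
    field_simp
    ring
  rw [h1]
  exact ha

theorem mass (M X Q R N : ℕ) [NeZero N] (w : ℝ) (hRM : R ≤ M) (hN : ∀ r ∈ rough Q R, r ∣ N)
    (hN3 : 3 * X < N) (hw : 2 * w * ((Q : ℝ) * R) ^ 2 < 1)
    (E : Finset (ZMod N)) (hE : ∀ t ∈ E, Maj Q w (al N t)) :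
    (∑ r ∈ rough Q R, (1 : ℝ) / r) * ∑ t ∈ E, ‖S M X (al N t)‖ ^ 2 ≤ (N : ℝ) * A M X := by
  classical
  have hlift : ∀ r ∈ rough Q R, ∀ t ∈ E, 1 / (r : ℝ) * ‖S M X (al N t)‖ ^ 2 ≤
      ∑ c ∈ (range r).filter (fun c => Nat.Coprime c r),
        ‖S M X (al N (t + ((c * (N / r) : ℕ) : ZMod N)))‖ ^ 2 := by
    intro r hr t _
    rw [mem_rough] at hr
    have hr0 : (0 : ℝ) < r := by exact_mod_cast hr.1.1
    have h1 := lift r hr.2.1 ((Ioc M (3 * X)).filter Nat.Prime) (by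
      intro n hn
      rw [mem_filter, mem_Ioc] at hn
      refine (Nat.Prime.coprime_iff_not_dvd hn.2).2 (Nat.not_dvd_of_pos_of_lt hr.1.1 ?_)
      omega) (al N t)
    have h2 : ∀ c, ‖∑ n ∈ (Ioc M (3 * X)).filter Nat.Prime, e ((n : ℝ) * (al N t + (c : ℝ) / r))‖ ^ 2
        = ‖S M X (al N t + (c : ℝ) / r)‖ ^ 2 := fun c => rfl
    have h3 : ∀ c : ℕ, ‖S M X (al N t + (c : ℝ) / r)‖ ^ 2
        = ‖S M X (al N (t + ((c * (N / r) : ℕ) : ZMod N)))‖ ^ 2 := by
      intro c
      obtain ⟨n, hn⟩ := al_shift N r c (hN r (mem_rough.2 hr)) t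
      rw [hn, S_add_int]
    have h4 : ∑ c ∈ (range r).filter (fun c => Nat.Coprime c r),
        ‖∑ n ∈ (Ioc M (3 * X)).filter Nat.Prime, e ((n : ℝ) * (al N t + (c : ℝ) / r))‖ ^ 2
        = ∑ c ∈ (range r).filter (fun c => Nat.Coprime c r),
          ‖S M X (al N (t + ((c * (N / r) : ℕ) : ZMod N)))‖ ^ 2 :=
      Finset.sum_congr rfl fun c _ => (h2 c).trans (h3 c)
    rw [h4] at h1
    have h5 : ‖S M X (al N t)‖ ^ 2 ≤ r * ∑ c ∈ (range r).filter (fun c => Nat.Coprime c r),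
          ‖S M X (al N (t + ((c * (N / r) : ℕ) : ZMod N)))‖ ^ 2 := h1
    rw [one_div, inv_mul_le_iff₀ hr0]
    exact h5
  set T : Finset (Σ _ : ℕ, ℕ × ZMod N) :=
    (rough Q R).sigma (fun r => ((range r).filter (fun c => Nat.Coprime c r)) ×ˢ E) with hT
  set f : (Σ _ : ℕ, ℕ × ZMod N) → ZMod N :=
    fun x => x.2.2 + ((x.2.1 * (N / x.1) : ℕ) : ZMod N) with hf
  have hinj : Set.InjOn f T := by
    rintro ⟨r, c, t⟩ h1 ⟨r', c', t'⟩ h2 h3
    rw [hT, Finset.mem_coe, Finset.mem_sigma, Finset.mem_product, Finset.mem_filter, Finset.mem_range]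
      at h1 h2
    obtain ⟨hr, ⟨hc, hcr⟩, ht⟩ := h1
    obtain ⟨hr', ⟨hc', hcr'⟩, ht'⟩ := h2
    dsimp only at hr hc hcr ht hr' hc' hcr' ht'
    have h4 : t + ((c * (N / r) : ℕ) : ZMod N) = t' + ((c' * (N / r') : ℕ) : ZMod N) := h3
    obtain ⟨n, hn⟩ := al_shift N r c (hN r hr) t
    obtain ⟨n', hn'⟩ := al_shift N r' c' (hN r' hr') t'
    have h5 : Maj Q w (al N (t + ((c * (N / r) : ℕ) : ZMod N)) - (c : ℝ) / r) := by
      have h6 : al N (t + ((c * (N / r) : ℕ) : ZMod N)) - (c : ℝ) / r = al N t + n := by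
        rw [hn]
        ring
      rw [h6]
      exact maj_add_int (hE t ht) n
    have h7 : Maj Q w (al N (t + ((c * (N / r) : ℕ) : ZMod N)) - (c' : ℝ) / r') := by
      have h6 : al N (t + ((c * (N / r) : ℕ) : ZMod N)) - (c' : ℝ) / r' = al N t' + n' := by
        rw [h4, hn']
        ring
      rw [h6]
      exact maj_add_int (hE t' ht') n'
    obtain ⟨h8, h9⟩ := disj Q R w _ hw r r' c c' hr hr' hc hc' hcr hcr' h5 h7
    subst h8
    subst h9
    have h10 : t = t' := add_right_cancel h4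
    rw [h10]
  have hsum : ∑ x ∈ T, ‖S M X (al N (f x))‖ ^ 2 ≤ (N : ℝ) * A M X := by
    rw [← sum_S_sq M X N hN3, ← Finset.sum_image (s := T) (g := f)
      (f := fun u => ‖S M X (al N u)‖ ^ 2) hinj]
    exact Finset.sum_le_univ_sum_of_nonneg fun u => by positivity
  refine le_trans ?_ hsum
  rw [hT, Finset.sum_sigma, Finset.sum_mul]
  refine Finset.sum_le_sum fun r hr => ?_
  rw [Finset.sum_product, Finset.sum_comm, Finset.mul_sum]
  exact Finset.sum_le_sum fun t ht => hlift r hr t ht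

end Pool.Agent.H26.LDP
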