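import Pool.Agent.H26.LDP.Parseval

/-!
# Plancherel for the differences of the counting function

Let a : ℤ → ℂ be the indicator of the primes in (M, 3X] and
f k = sum_{m in [1,M]} (a (k + m^3) - a (k + h + m^3)) for integers k.
(1) For M < k <= X all of k + m^3, k + h + m^3 lie in (M, 3X], so f k = cnt M k - cnt M (k+h).
(2) With I = [-2X, 3X] (length 5X+1 <= N): sum_{k in I} f k e(k x) = S(x) conj(C(x)) (1 - e(-h x)), because for
each shift s = m^3 or m^3 + h (0 <= s <= 2X): sum_{k in I} a(k+s) e(k x) = sum_n a(n) e((n-s) x) = S(x) e(-s x)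
(the support of a is in (0, 3X] and n - s lies in I).
(3) `parseval` for F = f on I, drop the k outside (M, X], and ‖1 - e(-h x)‖ = ‖1 - e(h x)‖.
-/

namespace Pool.Agent.H26.LDP

open Finset

/-- the indicator of the primes in `(M, 3X]`, on the integers -/
noncomputable def ind (M X : ℕ) (n : ℤ) : ℂ :=
  if (M : ℤ) < n ∧ n ≤ 3 * X ∧ n.toNat.Prime then 1 else 0

theorem shift_sum (M X s : ℕ) (hs : s ≤ 2 * X) (x : ℝ) :
    ∑ k ∈ Ico (-(2 * X : ℤ)) (-(2 * X : ℤ) + ((5 * X + 1 : ℕ) : ℤ)),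
      ind M X (k + s) * e ((k : ℝ) * x) = S M X x * e (-((s : ℝ) * x)) := by
  classical
  unfold S ind
  simp only [ite_mul, one_mul, zero_mul]
  rw [← sum_filter, sum_mul]
  refine sum_bij' (fun k _ => (k + s).toNat) (fun n _ => (n : ℤ) - s) ?_ ?_ ?_ ?_ ?_
  · intro k hk
    rw [mem_filter, mem_Ico] at hk
    obtain ⟨_, h1, h2, h3⟩ := hk
    rw [mem_filter, mem_Ioc]
    refine ⟨⟨by omega, by omega⟩, h3⟩
  · intro n hn
    rw [mem_filter, mem_Ioc] at hn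
    rw [mem_filter, mem_Ico]
    have h1 : (n : ℤ) - s + s = n := by ring
    rw [h1, Int.toNat_natCast]
    refine ⟨⟨by omega, by push_cast; omega⟩, by omega, by omega, hn.2⟩
  · intro k hk
    rw [mem_filter, mem_Ico] at hk
    obtain ⟨_, h1, h2, h3⟩ := hk
    have : 0 ≤ k + s := by omega
    rw [Int.toNat_of_nonneg this]
    ring
  · intro n hn
    simp
  · intro k hk
    rw [mem_filter, mem_Ico] at hk
    obtain ⟨_, h1, h2, h3⟩ := hk
    have h4 : 0 ≤ k + s := by omega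
    have h5 : (((k + s).toNat : ℕ) : ℝ) = (k : ℝ) + s := by
      have : (((k + s).toNat : ℕ) : ℤ) = k + s := Int.toNat_of_nonneg h4
      exact_mod_cast congrArg (Int.cast : ℤ → ℝ) this
    rw [h5, ← e_add]
    congr 1
    ring

/-- the difference function -/
noncomputable def ff (M X h : ℕ) (k : ℤ) : ℂ :=
  ∑ m ∈ Icc 1 M, (ind M X (k + (m ^ 3 : ℕ)) - ind M X (k + (m ^ 3 + h : ℕ)))

theorem ff_hat (M X h : ℕ) (hM : M ^ 3 ≤ X) (hh : h ≤ X) (x : ℝ) :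
    ∑ k ∈ Ico (-(2 * X : ℤ)) (-(2 * X : ℤ) + ((5 * X + 1 : ℕ) : ℤ)),
      ff M X h k * e ((k : ℝ) * x) =
      S M X x * ((starRingEnd ℂ) (C M x) * (1 - e (-((h : ℝ) * x)))) := by
  unfold ff
  simp only [sum_mul, sub_mul]
  rw [sum_comm]
  have h1 : ∀ m ∈ Icc 1 M, ∑ k ∈ Ico (-(2 * X : ℤ)) (-(2 * X : ℤ) + ((5 * X + 1 : ℕ) : ℤ)),
      (ind M X (k + (m ^ 3 : ℕ)) * e ((k : ℝ) * x) -
        ind M X (k + (m ^ 3 + h : ℕ)) * e ((k : ℝ) * x)) =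
      S M X x * ((starRingEnd ℂ) (e ((m : ℝ) ^ 3 * x)) * (1 - e (-((h : ℝ) * x)))) := by
    intro m hm
    rw [mem_Icc] at hm
    have h2 : m ^ 3 ≤ M ^ 3 := Nat.pow_le_pow_left hm.2 3
    rw [sum_sub_distrib, shift_sum M X (m ^ 3) (by omega) x,
      shift_sum M X (m ^ 3 + h) (by omega) x, ← e_neg]
    have h3 : e (-(((m ^ 3 + h : ℕ) : ℝ) * x)) = e (-((m : ℝ) ^ 3 * x)) * e (-((h : ℝ) * x)) := by
      rw [← e_add]
      congr 1
      push_cast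
      ring
    rw [h3]
    push_cast
    ring
  rw [sum_congr rfl h1, ← mul_sum, ← sum_mul]
  unfold C
  rw [map_sum]

theorem ind_nat (M X n : ℕ) (h1 : M < n) (h2 : n ≤ 3 * X) :
    ind M X (n : ℤ) = if n.Prime then 1 else 0 := by
  unfold ind
  rw [Int.toNat_natCast]
  have h3 : ((M : ℤ) < n ∧ (n : ℤ) ≤ 3 * X ∧ n.Prime) ↔ n.Prime :=
    ⟨fun h => h.2.2, fun h => ⟨by omega, by omega, h⟩⟩
  by_cases h : n.Prime
  · rw [if_pos (h3.mpr h), if_pos h]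
  · rw [if_neg (fun hh => h (h3.mp hh)), if_neg h]

theorem sum_ind (M X k : ℕ) (hM : M ^ 3 ≤ X) (h1 : M < k) (h2 : k ≤ 2 * X) :
    ∑ m ∈ Icc 1 M, ind M X ((k + m ^ 3 : ℕ) : ℤ) = (cnt M k : ℂ) := by
  have h3 : ∀ m ∈ Icc 1 M, ind M X ((k + m ^ 3 : ℕ) : ℤ) = if (m ^ 3 + k).Prime then 1 else 0 := by
    intro m hm
    rw [mem_Icc] at hm
    have h4 : m ^ 3 ≤ M ^ 3 := Nat.pow_le_pow_left hm.2 3
    rw [ind_nat M X (k + m ^ 3) (by omega) (by omega), add_comm k]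
  rw [sum_congr rfl h3]
  unfold cnt
  rw [sum_boole]

theorem ff_eq (M X h k : ℕ) (hM : M ^ 3 ≤ X) (hh : h ≤ X) (h1 : M < k) (h2 : k ≤ X) :
    ff M X h k = (((cnt M k : ℝ) - cnt M (k + h) : ℝ) : ℂ) := by
  unfold ff
  rw [sum_sub_distrib]
  have h3 := sum_ind M X k hM h1 (by omega)
  have h4 := sum_ind M X (k + h) hM (by omega) (by omega)
  have h5 : ∑ m ∈ Icc 1 M, ind M X ((k : ℤ) + (m ^ 3 : ℕ)) = (cnt M k : ℂ) := by
    rw [← h3]
    refine sum_congr rfl fun m _ => ?_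
    congr 1
  have h6 : ∑ m ∈ Icc 1 M, ind M X ((k : ℤ) + (m ^ 3 + h : ℕ)) = (cnt M (k + h) : ℂ) := by
    rw [← h4]
    refine sum_congr rfl fun m _ => ?_
    congr 1
    push_cast
    ring
  rw [h5, h6]
  push_cast
  rfl

theorem planch (M X h N : ℕ) [NeZero N] (hM : M ^ 3 ≤ X) (hh : h ≤ X) (hN : 6 * X < N) :
    (N : ℝ) * ∑ k ∈ Ioc M X, ((cnt M k : ℝ) - cnt M (k + h)) ^ 2 ≤
      ∑ t : ZMod N, ‖S M X (al N t)‖ ^ 2 * ‖C M (al N t)‖ ^ 2 * ‖1 - e ((h : ℝ) * al N t)‖ ^ 2 := by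
  have h1 := parseval N (-(2 * X : ℤ)) (5 * X + 1) (by omega) (ff M X h)
  have h2 : ∀ t : ZMod N, ‖∑ k ∈ Ico (-(2 * X : ℤ)) (-(2 * X : ℤ) + ((5 * X + 1 : ℕ) : ℤ)),
      ff M X h k * e ((k : ℝ) * al N t)‖ ^ 2 =
      ‖S M X (al N t)‖ ^ 2 * ‖C M (al N t)‖ ^ 2 * ‖1 - e ((h : ℝ) * al N t)‖ ^ 2 := by
    intro t
    rw [ff_hat M X h hM hh, norm_mul, norm_mul, RCLike.norm_conj]
    have h3 : ‖1 - e (-((h : ℝ) * al N t))‖ = ‖1 - e ((h : ℝ) * al N t)‖ := by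
      rw [e_neg, ← RCLike.norm_conj (1 - e ((h : ℝ) * al N t)), map_sub, map_one]
    rw [h3]
    ring
  rw [← sum_congr rfl fun t _ => h2 t, h1]
  refine mul_le_mul_of_nonneg_left ?_ (Nat.cast_nonneg N)
  have h4 : ∑ k ∈ Ioc M X, ((cnt M k : ℝ) - cnt M (k + h)) ^ 2 =
      ∑ k ∈ (Ioc M X).map Nat.castEmbedding, ‖ff M X h k‖ ^ 2 := by
    rw [sum_map]
    refine sum_congr rfl fun k hk => ?_
    rw [mem_Ioc] at hk
    rw [Nat.castEmbedding_apply, ff_eq M X h k hM hh hk.1 hk.2, Complex.norm_real,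
      Real.norm_eq_abs, sq_abs]
  rw [h4]
  refine sum_le_sum_of_subset_of_nonneg ?_ fun _ _ _ => sq_nonneg _
  intro k hk
  rw [mem_map] at hk
  obtain ⟨n, hn, rfl⟩ := hk
  rw [mem_Ioc] at hn
  rw [Nat.castEmbedding_apply, mem_Ico]
  constructor
  · omega
  · push_cast
    omega

end Pool.Agent.H26.LDP
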