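import Pool.Agent.H26.LDP.Defs

/-!
# Lower bound for the sum over rough squarefree moduli

(1) log R <= sum_{n <= R} 1/n (log_add_one_le_harmonic or similar).
(2) Each n is b^2 a with a squarefree (Nat.sq_mul_squarefree), and n -> (b, a) is injective, so
sum_{n <= R} 1/n <= (sum_{b=1}^R 1/b^2) (sum_{a <= R squarefree} 1/a) <= 2 sum_{a <= R squarefree} 1/a.
(3) A squarefree a <= R is the product of T = (primes p <= Q dividing a) and of an element of rough Q R, and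
a -> (T, a / prod T) is injective, so
sum_{a <= R squarefree} 1/a <= (sum over subsets T of the primes <= Q of prod_{p in T} 1/p) (sum_{r in rough Q R} 1/r),
and the first factor is prod_{p <= Q} (1 + 1/p) (Finset.prod_one_add or Finset.prod_add).
-/

namespace Pool.Agent.H26.LDP

open Finset

theorem log_le_sum (R : ℕ) (hR : 1 ≤ R) : Real.log R ≤ ∑ n ∈ Icc 1 R, (1 : ℝ) / n := by
  have h0 : (0 : ℝ) < R := by exact_mod_cast hR
  have h1 : Real.log R ≤ Real.log ((R + 1 : ℕ) : ℝ) :=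
    Real.log_le_log h0 (by push_cast; linarith)
  refine (h1.trans (log_add_one_le_harmonic R)).trans (le_of_eq ?_)
  rw [harmonic_eq_sum_Icc]
  push_cast
  refine sum_congr rfl fun n _ => ?_
  rw [one_div]

/-- squarefree numbers up to `R` -/
noncomputable def sqf (R : ℕ) : Finset ℕ := by
  classical exact (Icc 1 R).filter Squarefree

theorem mem_sqf {R r : ℕ} : r ∈ sqf R ↔ (1 ≤ r ∧ r ≤ R) ∧ Squarefree r := by
  unfold sqf
  simp

theorem sum_sq_le (R : ℕ) : ∑ b ∈ Icc 1 R, (1 : ℝ) / (b : ℝ) ^ 2 ≤ 2 := by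
  have h := sum_Ioo_inv_sq_le (α := ℝ) 0 (R + 1)
  have h1 : Ioo 0 (R + 1) = Icc 1 R := by
    ext x
    simp only [mem_Ioo, mem_Icc]
    omega
  rw [h1] at h
  simp only [one_div]
  refine h.trans ?_
  norm_num

theorem step_sq (R : ℕ) : ∑ n ∈ Icc 1 R, (1 : ℝ) / n ≤
    (∑ b ∈ Icc 1 R, (1 : ℝ) / (b : ℝ) ^ 2) * ∑ a ∈ sqf R, (1 : ℝ) / a := by
  classical
  have h1 : ∀ n : ℕ, ∃ q : ℕ × ℕ, q.1 ^ 2 * q.2 = n ∧ Squarefree q.2 := by
    intro n
    obtain ⟨a, b, h, ha⟩ := Nat.sq_mul_squarefree n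
    exact ⟨(b, a), h, ha⟩
  choose g hg1 hg2 using h1
  have hinj : Set.InjOn g (Icc 1 R : Finset ℕ) := by
    intro m _ n _ hmn
    rw [← hg1 m, ← hg1 n, hmn]
  have h2 : ∑ n ∈ Icc 1 R, (1 : ℝ) / n = ∑ x ∈ (Icc 1 R).image g,
      (1 : ℝ) / (x.1 : ℝ) ^ 2 * (1 / x.2) := by
    rw [sum_image hinj]
    refine sum_congr rfl fun n _ => ?_
    rw [one_div_mul_one_div]
    congr 1
    exact_mod_cast (hg1 n).symm
  rw [h2, sum_mul_sum, ← sum_product']
  refine sum_le_sum_of_subset_of_nonneg ?_ fun x _ _ => by positivity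
  intro x hx
  rw [mem_image] at hx
  obtain ⟨n, hn, rfl⟩ := hx
  rw [mem_Icc] at hn
  have h3 := hg1 n
  have ha : (g n).1 ≠ 0 := by
    intro h
    rw [h] at h3
    simp at h3
    omega
  have hb : (g n).2 ≠ 0 := by
    intro h
    rw [h] at h3
    simp at h3
    omega
  have h4 : (g n).1 ≤ n := by
    calc (g n).1 ≤ (g n).1 ^ 2 * (g n).2 := by
          calc (g n).1 = (g n).1 * 1 * 1 := by ring
            _ ≤ (g n).1 * (g n).1 * (g n).2 := by
              gcongr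
              · omega
              · omega
            _ = (g n).1 ^ 2 * (g n).2 := by ring
      _ = n := h3
  have h5 : (g n).2 ≤ n := by
    calc (g n).2 = 1 * (g n).2 := by ring
      _ ≤ (g n).1 ^ 2 * (g n).2 := by
          gcongr
          have : 1 ≤ (g n).1 := by omega
          exact Nat.one_le_pow _ _ this
      _ = n := h3
  rw [mem_product, mem_Icc, mem_sqf]
  exact ⟨⟨by omega, by omega⟩, ⟨by omega, by omega⟩, hg2 n⟩

theorem step_rough (Q R : ℕ) : ∑ a ∈ sqf R, (1 : ℝ) / a ≤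
    (∏ p ∈ (Icc 1 Q).filter Nat.Prime, (1 + 1 / (p : ℝ))) * ∑ r ∈ rough Q R, (1 : ℝ) / r := by
  classical
  set P := (Icc 1 Q).filter Nat.Prime with hP
  have hT : ∀ a : ℕ, ∏ p ∈ P.filter (fun p => p ∣ a), p ∣ a := by
    intro a
    refine Finset.prod_primes_dvd a (fun p hp => ?_) (fun p hp => ?_)
    · rw [mem_filter, hP, mem_filter] at hp
      exact hp.1.2.prime
    · exact (mem_filter.mp hp).2
  set g : ℕ → Finset ℕ × ℕ := fun a => (P.filter (fun p => p ∣ a),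
    a / ∏ p ∈ P.filter (fun p => p ∣ a), p) with hg
  have hg1 : ∀ a, (∏ p ∈ (g a).1, p) * (g a).2 = a := fun a => Nat.mul_div_cancel' (hT a)
  have hinj : Set.InjOn g (sqf R : Finset ℕ) := by
    intro m _ n _ hmn
    rw [← hg1 m, ← hg1 n, hmn]
  have h2 : ∑ a ∈ sqf R, (1 : ℝ) / a = ∑ x ∈ (sqf R).image g,
      (∏ p ∈ x.1, 1 / (p : ℝ)) * (1 / x.2) := by
    rw [sum_image hinj]
    refine sum_congr rfl fun a _ => ?_
    rw [prod_div_distrib, prod_const_one, one_div_mul_one_div]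
    congr 1
    have := congrArg (Nat.cast : ℕ → ℝ) (hg1 a)
    rw [Nat.cast_mul, Nat.cast_prod] at this
    exact this.symm
  rw [h2, prod_one_add, sum_mul_sum, ← sum_product']
  refine sum_le_sum_of_subset_of_nonneg ?_ fun x _ _ => by positivity
  intro x hx
  rw [mem_image] at hx
  obtain ⟨a, ha, rfl⟩ := hx
  rw [mem_sqf] at ha
  have h3 := hg1 a
  have hdvd : (g a).2 ∣ a := ⟨_, by rw [mul_comm]; exact h3.symm⟩
  have hpos : 0 < (g a).2 := Nat.pos_of_dvd_of_pos hdvd (by omega)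
  rw [mem_product, mem_powerset, mem_rough]
  refine ⟨filter_subset _ _, ⟨hpos, (Nat.le_of_dvd (by omega) hdvd).trans ha.1.2⟩,
    ha.2.squarefree_of_dvd hdvd, ?_⟩
  intro p hp hpd
  by_contra hcon
  have hpP : p ∈ (g a).1 := by
    rw [hg, mem_filter, hP, mem_filter, mem_Icc]
    exact ⟨⟨⟨hp.one_lt.le, not_lt.mp hcon⟩, hp⟩, hpd.trans hdvd⟩
  have h4 : p ∣ ∏ p ∈ (g a).1, p := dvd_prod_of_mem _ hpP
  have h5 : p * p ∣ a := by
    rw [← h3]
    exact mul_dvd_mul h4 hpd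
  have h6 := ha.2 p h5
  exact hp.one_lt.ne' (Nat.isUnit_iff.mp h6)

theorem sumLow (Q R : ℕ) (hR : 1 ≤ R) :
    Real.log R ≤ 2 * (∏ p ∈ (Icc 1 Q).filter Nat.Prime, (1 + 1 / (p : ℝ))) *
      ∑ r ∈ rough Q R, (1 : ℝ) / r := by
  have h1 := log_le_sum R hR
  have h2 := step_sq R
  have h3 := sum_sq_le R
  have h4 := step_rough Q R
  have h5 : 0 ≤ ∑ a ∈ sqf R, (1 : ℝ) / a := sum_nonneg fun _ _ => by positivity
  calc Real.log R ≤ (∑ b ∈ Icc 1 R, (1 : ℝ) / (b : ℝ) ^ 2) * ∑ a ∈ sqf R, (1 : ℝ) / a :=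
        h1.trans h2
    _ ≤ 2 * ∑ a ∈ sqf R, (1 : ℝ) / a := mul_le_mul_of_nonneg_right h3 h5
    _ ≤ 2 * ((∏ p ∈ (Icc 1 Q).filter Nat.Prime, (1 + 1 / (p : ℝ))) *
        ∑ r ∈ rough Q R, (1 : ℝ) / r) := by linarith
    _ = _ := by ring

end Pool.Agent.H26.LDP
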