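import Pool.Agent.H26.LDP.Weyl
import Pool.Agent.H26.LDP.Mass
import Pool.Agent.H26.LDP.SumLow
import Pool.Agent.H26.LDP.Elem
import Pool.Agent.H26.LDP.Planch

/-!
# The core inequality
-/

namespace Pool.Agent.H26.LDP

open Finset

/-- dyadic layers of a number in [0,1] -/
theorem layer (c : ℝ) (h0 : 0 ≤ c) (h1 : c ≤ 1) (I : ℕ) :
    c ^ 2 ≤ (1 / 4) ^ I +
      ∑ i ∈ range I, (1 / 4 : ℝ) ^ i * (if (1 / 2 : ℝ) ^ (i + 1) ≤ c then 1 else 0) := by
  induction I with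
  | zero =>
    simp only [pow_zero, range_zero, sum_empty, add_zero]
    nlinarith
  | succ I ih =>
    rw [sum_range_succ]
    by_cases h : (1 / 2 : ℝ) ^ (I + 1) ≤ c
    · rw [if_pos h]
      have : 0 ≤ (1 / 4 : ℝ) ^ (I + 1) := by positivity
      linarith
    · rw [if_neg h]
      push Not at h
      have h2 : c ^ 2 ≤ ((1 / 2 : ℝ) ^ (I + 1)) ^ 2 := pow_le_pow_left₀ h0 h.le 2
      have h3 : ((1 / 2 : ℝ) ^ (I + 1)) ^ 2 = (1 / 4) ^ (I + 1) := by
        rw [← pow_mul, mul_comm, pow_mul]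
        norm_num
      have h4 : 0 ≤ ∑ i ∈ range I, (1 / 4 : ℝ) ^ i * (if (1 / 2 : ℝ) ^ (i + 1) ≤ c then 1 else 0) := by
        apply sum_nonneg
        intro i _
        split_ifs <;> positivity
      rw [h3] at h2
      linarith

theorem Maj_mono {Q Q' : ℕ} {w w' x : ℝ} (hQ : Q ≤ Q') (hw : w ≤ w') (h : Maj Q w x) :
    Maj Q' w' x := by
  obtain ⟨q, h1, h2, a, h3⟩ := h
  exact ⟨q, h1, h2.trans hQ, a, h3.trans hw⟩

theorem massBound : ∃ K : ℝ, 0 < K ∧ ∀ (X M N j : ℕ) [NeZero N], 2 ^ (193 + 72 * j) < M →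
    (∀ r : ℕ, 1 ≤ r → r ≤ M → r ∣ N) → 3 * X < N → ∀ E : Finset (ZMod N),
    (∀ t ∈ E, Maj (2 ^ (64 + 24 * j)) ((2 : ℝ) ^ (64 + 24 * j) / (M : ℝ) ^ 3) (al N t)) →
    ∑ t ∈ E, ‖S M X (al N t)‖ ^ 2 ≤ K * N * A M X * 2 ^ j / Real.log M := by
  obtain ⟨K, hK, hP⟩ := prodUp
  refine ⟨2 * K, by positivity, fun X M N j _ hM hN hN3 E hE => ?_⟩
  have hM1 : 1 < M := lt_of_le_of_lt Nat.one_le_two_pow hM
  have hM1' : (1 : ℝ) < M := by exact_mod_cast hM1
  have hM0 : (0 : ℝ) < M := by linarith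
  have hlog : 0 < Real.log M := Real.log_pos hM1'
  have hMr : (2 : ℝ) ^ (193 + 72 * j) < M := by exact_mod_cast hM
  have hw : 2 * ((2 : ℝ) ^ (64 + 24 * j) / (M : ℝ) ^ 3) *
      (((2 ^ (64 + 24 * j) : ℕ) : ℝ) * (M : ℕ)) ^ 2 < 1 := by
    have e1 : 2 * ((2 : ℝ) ^ (64 + 24 * j) / (M : ℝ) ^ 3) *
      (((2 ^ (64 + 24 * j) : ℕ) : ℝ) * (M : ℕ)) ^ 2 = 2 ^ (193 + 72 * j) / M := by
      push_cast
      have : (2 : ℝ) ^ (193 + 72 * j) = 2 * (2 ^ (64 + 24 * j)) ^ 3 := by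
        rw [← pow_mul, ← pow_succ']
        congr 1
        ring
      rw [this]
      field_simp
    rw [e1, div_lt_one hM0]
    exact hMr
  have h1 := mass M X (2 ^ (64 + 24 * j)) M N ((2 : ℝ) ^ (64 + 24 * j) / (M : ℝ) ^ 3) le_rfl
    (fun r hr => hN r (mem_rough.1 hr).1.1 (mem_rough.1 hr).1.2) hN3 hw E hE
  have h2 := sumLow (2 ^ (64 + 24 * j)) M hM1.le
  have h3 := hP j
  set P := ∏ p ∈ (Icc 1 (2 ^ (64 + 24 * j))).filter Nat.Prime, (1 + 1 / (p : ℝ)) with hPdef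
  set G := ∑ r ∈ rough (2 ^ (64 + 24 * j)) M, (1 : ℝ) / r with hG
  set T := ∑ t ∈ E, ‖S M X (al N t)‖ ^ 2 with hT
  have hT0 : 0 ≤ T := sum_nonneg fun _ _ => by positivity
  have hP0 : 0 ≤ P := prod_nonneg fun p _ => by positivity
  rw [le_div_iff₀ hlog]
  calc T * Real.log M ≤ T * (2 * P * G) := mul_le_mul_of_nonneg_left h2 hT0
    _ = 2 * P * (G * T) := by ring
    _ ≤ 2 * P * (N * A M X) := mul_le_mul_of_nonneg_left h1 (by positivity)
    _ ≤ 2 * (K * 2 ^ j) * (N * A M X) := by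
        apply mul_le_mul_of_nonneg_right _ (by positivity)
        linarith
    _ = _ := by ring

theorem arc_factor (h Q : ℕ) (w x : ℝ) (hQ : ∀ q : ℕ, 1 ≤ q → q ≤ Q → q ∣ h) (hx : Maj Q w x) :
    ‖1 - e ((h : ℝ) * x)‖ ≤ 2 * Real.pi * (h * w) := by
  obtain ⟨q, h1, h2, a, h3⟩ := hx
  obtain ⟨b, hb⟩ := hQ q h1 h2
  have hq : (q : ℝ) ≠ 0 := by
    have : (0 : ℝ) < q := by exact_mod_cast h1
    exact this.ne'
  refine (norm_one_sub_e_le ((h : ℝ) * x) (b * a)).trans ?_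
  apply mul_le_mul_of_nonneg_left _ (by positivity)
  have e1 : (h : ℝ) * x - ((b * a : ℤ) : ℝ) = h * (x - a / q) := by
    rw [hb]
    push_cast
    field_simp
  rw [e1, abs_mul, abs_of_nonneg (Nat.cast_nonneg h)]
  exact mul_le_mul_of_nonneg_left h3 (Nat.cast_nonneg h)

theorem core : ∃ K : ℝ, 0 < K ∧ ∀ X M h i₀ I : ℕ, M ^ 3 ≤ X → h ≤ X →
    2 ^ (193 + 72 * I) < M → i₀ ≤ I →
    (∀ q : ℕ, 0 < i₀ → 1 ≤ q → q ≤ 2 ^ (64 + 24 * i₀) → q ∣ h) →
    ∑ k ∈ Ioc M X, ((cnt M k : ℝ) - cnt M (k + h)) ^ 2 ≤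
      K * A M X * (M : ℝ) ^ 2 * ((1 / 4) ^ I + (1 / 2) ^ i₀ / Real.log M +
        ((h : ℝ) * 2 ^ (64 + 24 * i₀) / (M : ℝ) ^ 3) ^ 2 * 2 ^ i₀ / Real.log M) := by
  obtain ⟨K, hK, hmass⟩ := massBound
  refine ⟨4 + 80 * K, by positivity, fun X M h i₀ I hMX hhX hI hi hdiv => ?_⟩
  set N : ℕ := (6 * X + 1).factorial with hNdef
  have : NeZero N := ⟨Nat.factorial_ne_zero _⟩
  have hN1 : 6 * X + 1 ≤ N := Nat.self_le_factorial _
  have hN6 : 6 * X < N := by omega
  have hN3 : 3 * X < N := by omega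
  have hM1 : 1 < M := lt_of_le_of_lt Nat.one_le_two_pow hI
  have hMX' : M ≤ X := by
    calc M = M ^ 1 := (pow_one M).symm
      _ ≤ M ^ 3 := Nat.pow_le_pow_right (by omega) (by norm_num)
      _ ≤ X := hMX
  have hNr : ∀ r : ℕ, 1 ≤ r → r ≤ M → r ∣ N := fun r hr1 hr2 =>
    Nat.dvd_factorial (by omega) (by omega)
  have hM1' : (1 : ℝ) < M := by exact_mod_cast hM1
  have hM0 : (0 : ℝ) < M := by linarith
  have hlog : 0 < Real.log M := Real.log_pos hM1'
  have hNpos : (0 : ℝ) < N := by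
    have : 0 < N := Nat.factorial_pos _
    exact_mod_cast this
  have hA0 : (0 : ℝ) ≤ A M X := Nat.cast_nonneg _
  set w₀ : ℝ := (2 : ℝ) ^ (64 + 24 * i₀) / (M : ℝ) ^ 3 with hw₀
  have hw₀0 : 0 ≤ w₀ := by positivity
  -- notation
  set g : ZMod N → ℝ := fun t => ‖S M X (al N t)‖ ^ 2 with hg
  set d : ZMod N → ℝ := fun t => ‖1 - e ((h : ℝ) * al N t)‖ ^ 2 with hd
  set c : ZMod N → ℝ := fun t => ‖C M (al N t)‖ / M with hc
  have hg0 : ∀ t, 0 ≤ g t := fun t => by positivity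
  have hd0 : ∀ t, 0 ≤ d t := fun t => by positivity
  have hd4 : ∀ t, d t ≤ 4 := fun t => by
    have := norm_one_sub_e_le_two ((h : ℝ) * al N t)
    have h2 : ‖1 - e ((h : ℝ) * al N t)‖ ^ 2 ≤ 2 ^ 2 := pow_le_pow_left₀ (norm_nonneg _) this 2
    calc d t = ‖1 - e ((h : ℝ) * al N t)‖ ^ 2 := rfl
      _ ≤ 2 ^ 2 := h2
      _ = 4 := by norm_num
  have hc0 : ∀ t, 0 ≤ c t := fun t => by positivity
  have hc1 : ∀ t, c t ≤ 1 := fun t => by
    have := norm_C_le M (al N t)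
    rw [hc]
    exact (div_le_one hM0).2 this
  have hgsum : ∑ t, g t = N * A M X := sum_S_sq M X N hN3
  -- levels
  set E : ℕ → Finset (ZMod N) := fun i => univ.filter (fun t => (1 / 2 : ℝ) ^ (i + 1) ≤ c t) with hE
  have hlev : ∀ i, i < I → ∀ t ∈ E i,
      Maj (2 ^ (64 + 24 * (i + 1))) ((2 : ℝ) ^ (64 + 24 * (i + 1)) / (M : ℝ) ^ 3) (al N t) := by
    intro i hiI t ht
    rw [hE, mem_filter] at ht
    apply weyl_level
    · have : 2 ^ (24 + 9 * (i + 1)) ≤ 2 ^ (193 + 72 * I) :=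
        Nat.pow_le_pow_right (by norm_num) (by omega)
      omega
    · have := ht.2
      rw [hc] at this
      rwa [le_div_iff₀ hM0] at this
  -- bound for each level
  have hlevel : ∀ i, i < I → ∑ t ∈ E i, g t * d t ≤
      K * N * A M X / Real.log M * ((if i₀ ≤ i then 8 * 2 ^ i else 0) +
        (2 * Real.pi * (h * w₀)) ^ 2 * 2 ^ i₀) := by
    intro i hiI
    by_cases hii : i₀ ≤ i
    · rw [if_pos hii]
      have h1 : ∑ t ∈ E i, g t * d t ≤ ∑ t ∈ E i, 4 * g t := by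
        apply sum_le_sum
        intro t _
        have := hd4 t
        have := hg0 t
        nlinarith
      have h2 := hmass X M N (i + 1) (lt_of_le_of_lt (Nat.pow_le_pow_right (by norm_num) (by omega)) hI)
        hNr hN3 (E i) (hlev i hiI)
      rw [← mul_sum] at h1
      have h3 : 4 * ∑ t ∈ E i, g t ≤ 4 * (K * N * A M X * 2 ^ (i + 1) / Real.log M) :=
        mul_le_mul_of_nonneg_left h2 (by norm_num)
      have h4 : 4 * (K * N * A M X * 2 ^ (i + 1) / Real.log M) =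
          K * N * A M X / Real.log M * (8 * 2 ^ i) := by
        rw [pow_succ]
        ring
      rw [h4] at h3
      have h5 : 0 ≤ K * N * A M X / Real.log M := by positivity
      have h6 : 0 ≤ (2 * Real.pi * (h * w₀)) ^ 2 * 2 ^ i₀ := by positivity
      calc ∑ t ∈ E i, g t * d t ≤ _ := h1
        _ ≤ _ := h3
        _ ≤ _ := by
          apply mul_le_mul_of_nonneg_left _ h5
          linarith
    · rw [if_neg hii, zero_add]
      push Not at hii
      have hmaj : ∀ t ∈ E i, Maj (2 ^ (64 + 24 * i₀)) w₀ (al N t) := by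
        intro t ht
        apply Maj_mono _ _ (hlev i hiI t ht)
        · exact Nat.pow_le_pow_right (by norm_num) (by omega)
        · rw [hw₀]
          apply div_le_div_of_nonneg_right _ (by positivity)
          apply pow_le_pow_right₀ (by norm_num)
          omega
      have hdiv' : ∀ q : ℕ, 1 ≤ q → q ≤ 2 ^ (64 + 24 * i₀) → q ∣ h := fun q hq1 hq2 =>
        hdiv q (by omega) hq1 hq2
      have h1 : ∑ t ∈ E i, g t * d t ≤ ∑ t ∈ E i, (2 * Real.pi * (h * w₀)) ^ 2 * g t := by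
        apply sum_le_sum
        intro t ht
        have h2 := arc_factor h (2 ^ (64 + 24 * i₀)) w₀ (al N t) hdiv' (hmaj t ht)
        have h3 : d t ≤ (2 * Real.pi * (h * w₀)) ^ 2 := pow_le_pow_left₀ (norm_nonneg _) h2 2
        rw [mul_comm (g t)]
        exact mul_le_mul_of_nonneg_right h3 (hg0 t)
      rw [← mul_sum] at h1
      have h2 := hmass X M N i₀ (lt_of_le_of_lt (Nat.pow_le_pow_right (by norm_num) (by omega)) hI)
        hNr hN3 (E i) hmaj
      calc ∑ t ∈ E i, g t * d t ≤ _ := h1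
        _ ≤ (2 * Real.pi * (h * w₀)) ^ 2 * (K * N * A M X * 2 ^ i₀ / Real.log M) :=
          mul_le_mul_of_nonneg_left h2 (by positivity)
        _ = _ := by ring
  -- the total
  have hmain : ∑ t : ZMod N, ‖S M X (al N t)‖ ^ 2 * ‖C M (al N t)‖ ^ 2 * ‖1 - e ((h : ℝ) * al N t)‖ ^ 2 ≤
      (M : ℝ) ^ 2 * ((1 / 4) ^ I * (4 * (N * A M X)) +
        ∑ i ∈ range I, (1 / 4 : ℝ) ^ i * ∑ t ∈ E i, g t * d t) := by
    have h1 : ∀ t : ZMod N, ‖S M X (al N t)‖ ^ 2 * ‖C M (al N t)‖ ^ 2 * ‖1 - e ((h : ℝ) * al N t)‖ ^ 2 ≤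
        (M : ℝ) ^ 2 * ((1 / 4) ^ I * (4 * g t) +
          ∑ i ∈ range I, (1 / 4 : ℝ) ^ i * (if t ∈ E i then g t * d t else 0)) := by
      intro t
      have h2 := layer (c t) (hc0 t) (hc1 t) I
      have h3 : ‖C M (al N t)‖ = c t * M := by
        rw [hc]
        field_simp
      have h4 : ‖S M X (al N t)‖ ^ 2 * ‖C M (al N t)‖ ^ 2 * ‖1 - e ((h : ℝ) * al N t)‖ ^ 2 =
          (M : ℝ) ^ 2 * (g t * d t * c t ^ 2) := by
        rw [h3, hg, hd]
        ring
      rw [h4]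
      apply mul_le_mul_of_nonneg_left _ (by positivity)
      have h5 : 0 ≤ g t * d t := mul_nonneg (hg0 t) (hd0 t)
      calc g t * d t * c t ^ 2 ≤ g t * d t * ((1 / 4) ^ I +
            ∑ i ∈ range I, (1 / 4 : ℝ) ^ i * (if (1 / 2 : ℝ) ^ (i + 1) ≤ c t then 1 else 0)) :=
            mul_le_mul_of_nonneg_left h2 h5
        _ = (1 / 4) ^ I * (g t * d t) +
            ∑ i ∈ range I, (1 / 4 : ℝ) ^ i * (if t ∈ E i then g t * d t else 0) := by
            rw [mul_add, mul_sum]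
            congr 1
            · ring
            · apply sum_congr rfl
              intro i _
              have : t ∈ E i ↔ (1 / 2 : ℝ) ^ (i + 1) ≤ c t := by
                rw [hE, mem_filter]
                simp
              by_cases hh : t ∈ E i
              · rw [if_pos hh, if_pos (this.1 hh)]
                ring
              · rw [if_neg hh, if_neg (fun h' => hh (this.2 h'))]
                ring
        _ ≤ _ := by
            have : (1 / 4 : ℝ) ^ I * (g t * d t) ≤ (1 / 4) ^ I * (4 * g t) := by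
              apply mul_le_mul_of_nonneg_left _ (by positivity)
              have := hd4 t
              have := hg0 t
              nlinarith
            linarith
    calc _ ≤ ∑ t : ZMod N, (M : ℝ) ^ 2 * ((1 / 4) ^ I * (4 * g t) +
          ∑ i ∈ range I, (1 / 4 : ℝ) ^ i * (if t ∈ E i then g t * d t else 0)) :=
          sum_le_sum fun t _ => h1 t
      _ = _ := by
        rw [← mul_sum, sum_add_distrib, ← mul_sum, ← mul_sum, hgsum]
        congr 2
        rw [sum_comm]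
        apply sum_congr rfl
        intro i _
        rw [← mul_sum]
        congr 1
        rw [sum_ite_mem, univ_inter]
  -- sum the levels
  have hsum : ∑ i ∈ range I, (1 / 4 : ℝ) ^ i * ∑ t ∈ E i, g t * d t ≤
      K * N * A M X / Real.log M * (16 * (1 / 2) ^ i₀ +
        2 * ((2 * Real.pi * (h * w₀)) ^ 2 * 2 ^ i₀)) := by
    have h5 : 0 ≤ K * N * A M X / Real.log M := by positivity
    calc ∑ i ∈ range I, (1 / 4 : ℝ) ^ i * ∑ t ∈ E i, g t * d t
        ≤ ∑ i ∈ range I, (1 / 4 : ℝ) ^ i * (K * N * A M X / Real.log M *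
          ((if i₀ ≤ i then 8 * 2 ^ i else 0) + (2 * Real.pi * (h * w₀)) ^ 2 * 2 ^ i₀)) := by
          apply sum_le_sum
          intro i hi'
          rw [mem_range] at hi'
          exact mul_le_mul_of_nonneg_left (hlevel i hi') (by positivity)
      _ = K * N * A M X / Real.log M * (8 * ∑ i ∈ range I, (if i₀ ≤ i then (1 / 2 : ℝ) ^ i else 0) +
          (∑ i ∈ range I, (1 / 4 : ℝ) ^ i) * ((2 * Real.pi * (h * w₀)) ^ 2 * 2 ^ i₀)) := by
          rw [mul_sum, sum_mul, ← sum_add_distrib, mul_sum]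
          apply sum_congr rfl
          intro i _
          have e4 : (1 / 4 : ℝ) ^ i * 2 ^ i = (1 / 2) ^ i := by
            rw [← mul_pow]
            norm_num
          split_ifs
          · calc (1 / 4 : ℝ) ^ i * (K * N * A M X / Real.log M *
                  (8 * 2 ^ i + (2 * Real.pi * (h * w₀)) ^ 2 * 2 ^ i₀)) =
                K * N * A M X / Real.log M * (8 * ((1 / 4 : ℝ) ^ i * 2 ^ i) +
                  (1 / 4 : ℝ) ^ i * ((2 * Real.pi * (h * w₀)) ^ 2 * 2 ^ i₀)) := by ring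
              _ = _ := by rw [e4]
          · ring
      _ ≤ _ := by
          apply mul_le_mul_of_nonneg_left _ h5
          have h6 : ∑ i ∈ range I, (if i₀ ≤ i then (1 / 2 : ℝ) ^ i else 0) ≤ 2 * (1 / 2) ^ i₀ := by
            have h7 : ∑ i ∈ range I, (if i₀ ≤ i then (1 / 2 : ℝ) ^ i else 0) =
                ∑ i ∈ Ico i₀ I, (1 / 2 : ℝ) ^ i := by
              rw [← sum_filter]
              congr 1
              ext i
              rw [mem_filter, mem_range, mem_Ico]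
              tauto
            rw [h7]
            have h8 := geom_sum_Ico_le_of_lt_one (x := (1 / 2 : ℝ)) (m := i₀) (n := I)
              (by norm_num) (by norm_num)
            calc _ ≤ _ := h8
              _ = _ := by ring
          have h7 : ∑ i ∈ range I, (1 / 4 : ℝ) ^ i ≤ 2 := by
            have h8 := geom_sum_Ico_le_of_lt_one (x := (1 / 4 : ℝ)) (m := 0) (n := I)
              (by norm_num) (by norm_num)
            rw [range_eq_Ico]
            calc _ ≤ _ := h8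
              _ ≤ _ := by norm_num
          have h9 : 0 ≤ (2 * Real.pi * (h * w₀)) ^ 2 * 2 ^ i₀ := by positivity
          have h10 := mul_le_mul_of_nonneg_right h7 h9
          linarith
  have hpl := planch M X h N hMX hhX hN6
  have hfin : (N : ℝ) * ∑ k ∈ Ioc M X, ((cnt M k : ℝ) - cnt M (k + h)) ^ 2 ≤
      N * ((4 + 80 * K) * A M X * (M : ℝ) ^ 2 * ((1 / 4) ^ I + (1 / 2) ^ i₀ / Real.log M +
        ((h : ℝ) * 2 ^ (64 + 24 * i₀) / (M : ℝ) ^ 3) ^ 2 * 2 ^ i₀ / Real.log M)) := by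
    refine hpl.trans (hmain.trans ?_)
    have hpi : (2 * Real.pi) ^ 2 ≤ 40 := by
      have := Real.pi_lt_d2
      have := Real.pi_pos
      nlinarith
    have e1 : (h : ℝ) * 2 ^ (64 + 24 * i₀) / (M : ℝ) ^ 3 = h * w₀ := by
      rw [hw₀]
      ring
    rw [e1]
    have e2 : (2 * Real.pi * (h * w₀)) ^ 2 = (2 * Real.pi) ^ 2 * (h * w₀) ^ 2 := by ring
    have h11 : (2 * Real.pi * (h * w₀)) ^ 2 ≤ 40 * (h * w₀) ^ 2 := by
      rw [e2]
      exact mul_le_mul_of_nonneg_right hpi (by positivity)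
    have h12 : K * N * A M X / Real.log M * (16 * (1 / 2) ^ i₀ +
        2 * ((2 * Real.pi * (h * w₀)) ^ 2 * 2 ^ i₀)) ≤
        K * N * A M X / Real.log M * (80 * (1 / 2) ^ i₀ + 80 * ((h * w₀) ^ 2 * 2 ^ i₀)) := by
      apply mul_le_mul_of_nonneg_left _ (by positivity)
      have h13 : (0 : ℝ) < 2 ^ i₀ := by positivity
      have h14 := mul_le_mul_of_nonneg_right h11 h13.le
      have h15 : (0 : ℝ) < (1 / 2 : ℝ) ^ i₀ := by positivity
      nlinarith
    have h16 := hsum.trans h12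
    have h17 : (M : ℝ) ^ 2 * ((1 / 4) ^ I * (4 * (N * A M X)) +
        ∑ i ∈ range I, (1 / 4 : ℝ) ^ i * ∑ t ∈ E i, g t * d t) ≤
        (M : ℝ) ^ 2 * ((1 / 4) ^ I * (4 * (N * A M X)) +
        K * N * A M X / Real.log M * (80 * (1 / 2) ^ i₀ + 80 * ((h * w₀) ^ 2 * 2 ^ i₀))) := by
      apply mul_le_mul_of_nonneg_left _ (by positivity)
      linarith
    refine h17.trans ?_
    have h18 : (N : ℝ) * ((4 + 80 * K) * A M X * (M : ℝ) ^ 2 * ((1 / 4) ^ I + (1 / 2) ^ i₀ / Real.log M +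
        (h * w₀) ^ 2 * 2 ^ i₀ / Real.log M)) - (M : ℝ) ^ 2 * ((1 / 4) ^ I * (4 * (N * A M X)) +
        K * N * A M X / Real.log M * (80 * (1 / 2) ^ i₀ + 80 * ((h * w₀) ^ 2 * 2 ^ i₀))) =
        (N : ℝ) * A M X * (M : ℝ) ^ 2 * (80 * K * (1 / 4) ^ I + 4 * ((1 / 2) ^ i₀ / Real.log M) +
          4 * ((h * w₀) ^ 2 * 2 ^ i₀ / Real.log M)) := by
      ring
    have h19 : 0 ≤ (N : ℝ) * A M X * (M : ℝ) ^ 2 * (80 * K * (1 / 4) ^ I + 4 * ((1 / 2) ^ i₀ / Real.log M) +
          4 * ((h * w₀) ^ 2 * 2 ^ i₀ / Real.log M)) := by positivity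
    linarith
  exact le_of_mul_le_mul_left hfin hNpos

end Pool.Agent.H26.LDP
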