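import Pool.Agent.H26.LDP.Defs

/-!
# Lifting to rough moduli

Let r be squarefree and n coprime to r. Then the Ramanujan sum
sum over c in [0,r), (c,r)=1, of e(n c/r) equals mu(r), hence has norm 1. (Proof: write the coprimality indicator
as sum_{d | gcd(c,r)} mu(d); for d | r the sum over c in [0,r) with d | c, c = d c', of e(n c'/(r/d)) is 0
unless (r/d) | n, i.e. r/d = 1, when it is 1; total mu(r).)
So for a finite set s of integers coprime to r:
sum*_c sum_{n in s} e(n (x + c/r)) = mu(r) sum_{n in s} e(n x), and Cauchy-Schwarz gives `lift`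
(the number of c is phi(r) <= r).
-/

namespace Pool.Agent.H26.LDP

open Finset

/-- coprimality indicator -/
theorem lift_ind (r c : ℕ) (hr : 1 ≤ r) :
    (if Nat.Coprime c r then (1 : ℂ) else 0) =
      ∑ d ∈ r.divisors.filter (fun d => d ∣ c), (ArithmeticFunction.moebius d : ℂ) := by
  have hset : r.divisors.filter (fun d => d ∣ c) = (Nat.gcd c r).divisors := by
    ext d
    have hg : Nat.gcd c r ≠ 0 := Nat.gcd_ne_zero_right (by omega)
    simp only [mem_filter, Nat.mem_divisors, Nat.dvd_gcd_iff]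
    constructor
    · rintro ⟨⟨h1, h2⟩, h3⟩
      exact ⟨⟨h3, h1⟩, hg⟩
    · rintro ⟨⟨h1, h2⟩, h3⟩
      exact ⟨⟨h2, by omega⟩, h1⟩
  rw [hset]
  have h1 := congrArg (fun f : ArithmeticFunction ℤ => f (Nat.gcd c r))
    ArithmeticFunction.moebius_mul_coe_zeta
  simp only [ArithmeticFunction.coe_mul_zeta_apply, ArithmeticFunction.one_apply] at h1
  have h2 : (∑ d ∈ (Nat.gcd c r).divisors, (ArithmeticFunction.moebius d : ℂ)) =
      ((∑ d ∈ (Nat.gcd c r).divisors, ArithmeticFunction.moebius d : ℤ) : ℂ) := by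
    push_cast
    rfl
  rw [h2, h1]
  by_cases hc : Nat.Coprime c r
  · rw [if_pos hc, if_pos hc]
    simp
  · rw [if_neg hc, if_neg hc]
    simp

/-- sums over multiples of a divisor -/
theorem lift_mult (d m : ℕ) (hd : 0 < d) (f : ℕ → ℂ) :
    ∑ c ∈ (range (d * m)).filter (fun c => d ∣ c), f c = ∑ c ∈ range m, f (d * c) := by
  have hset : (range (d * m)).filter (fun c => d ∣ c) = (range m).image (fun c => d * c) := by
    ext c
    simp only [mem_filter, mem_range, mem_image]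
    constructor
    · rintro ⟨h1, c', rfl⟩
      exact ⟨c', Nat.lt_of_mul_lt_mul_left h1, rfl⟩
    · rintro ⟨c', h1, rfl⟩
      exact ⟨Nat.mul_lt_mul_of_pos_left h1 hd, Dvd.intro _ rfl⟩
  rw [hset, sum_image]
  intro a _ b _ hab
  exact Nat.eq_of_mul_eq_mul_left hd hab

theorem lift_geom (n m : ℕ) (hm : 1 ≤ m) (h : Nat.Coprime n m) :
    ∑ c ∈ range m, e ((n : ℝ) * ((c : ℝ) / m)) = if m = 1 then 1 else 0 := by
  by_cases h1 : m = 1
  · subst h1
    simp [e_zero]
  · rw [if_neg h1]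
    have h2 := Complex.isPrimitiveRoot_exp_of_coprime n m (by omega) h
    rw [← h2.geom_sum_eq_zero (by omega)]
    refine sum_congr rfl fun c _ => ?_
    rw [show (n : ℝ) * ((c : ℝ) / m) = (c : ℝ) * ((n : ℝ) / m) by ring, e_mul_nat]
    congr 1
    unfold e
    push_cast
    rfl

theorem ramanujan (r n : ℕ) (hr : 1 ≤ r) (h : Nat.Coprime n r) :
    ∑ c ∈ (range r).filter (fun c => Nat.Coprime c r), e ((n : ℝ) * ((c : ℝ) / r)) =
      (ArithmeticFunction.moebius r : ℂ) := by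
  have h1 : ∑ c ∈ (range r).filter (fun c => Nat.Coprime c r), e ((n : ℝ) * ((c : ℝ) / r)) =
      ∑ d ∈ r.divisors, (ArithmeticFunction.moebius d : ℂ) *
        ∑ c ∈ (range r).filter (fun c => d ∣ c), e ((n : ℝ) * ((c : ℝ) / r)) := by
    rw [sum_filter]
    have h2 : ∀ c ∈ range r, (if Nat.Coprime c r then e ((n : ℝ) * ((c : ℝ) / r)) else 0) =
        ∑ d ∈ r.divisors, (if d ∣ c then (ArithmeticFunction.moebius d : ℂ) *
          e ((n : ℝ) * ((c : ℝ) / r)) else 0) := by
      intro c _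
      rw [← sum_filter, ← sum_mul, ← lift_ind r c hr, ite_mul, one_mul, zero_mul]
    rw [sum_congr rfl h2, sum_comm]
    refine sum_congr rfl fun d _ => ?_
    rw [← sum_filter, mul_sum]
  rw [h1]
  have h3 : ∀ d ∈ r.divisors, (ArithmeticFunction.moebius d : ℂ) *
        ∑ c ∈ (range r).filter (fun c => d ∣ c), e ((n : ℝ) * ((c : ℝ) / r)) =
      if d = r then (ArithmeticFunction.moebius r : ℂ) else 0 := by
    intro d hd
    obtain ⟨⟨m, rfl⟩, -⟩ := Nat.mem_divisors.1 hd
    have hd0 : 0 < d := by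
      rcases Nat.eq_zero_or_pos d with h0 | h0
      · rw [h0, zero_mul] at hr; omega
      · exact h0
    have hm0 : 0 < m := by
      rcases Nat.eq_zero_or_pos m with h0 | h0
      · rw [h0, mul_zero] at hr; omega
      · exact h0
    rw [lift_mult d m hd0]
    have h4 : ∀ c ∈ range m, e ((n : ℝ) * (((d * c : ℕ) : ℝ) / ((d * m : ℕ) : ℝ))) =
        e ((n : ℝ) * ((c : ℝ) / m)) := by
      intro c _
      congr 2
      have hd1 : (d : ℝ) ≠ 0 := by positivity
      have hm1 : (m : ℝ) ≠ 0 := by positivity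
      push_cast
      field_simp
    rw [sum_congr rfl h4, lift_geom n m hm0 (h.coprime_dvd_right (Dvd.intro_left _ rfl))]
    by_cases hm1 : m = 1
    · subst hm1
      simp
    · rw [if_neg hm1, if_neg, mul_zero]
      intro h5
      apply hm1
      have : d * 1 = d * m := by rw [mul_one]; exact h5
      exact (Nat.eq_of_mul_eq_mul_left hd0 this).symm
  rw [sum_congr rfl h3, sum_ite_eq' r.divisors r]
  rw [if_pos (Nat.mem_divisors_self r (by omega))]

theorem lift (r : ℕ) (hr : Squarefree r) (s : Finset ℕ) (hs : ∀ n ∈ s, Nat.Coprime n r) (x : ℝ) :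
    ‖∑ n ∈ s, e ((n : ℝ) * x)‖ ^ 2 ≤
      r * ∑ c ∈ (range r).filter (fun c => Nat.Coprime c r),
        ‖∑ n ∈ s, e ((n : ℝ) * (x + (c : ℝ) / r))‖ ^ 2 := by
  have hr1 : 1 ≤ r := Nat.one_le_iff_ne_zero.2 hr.ne_zero
  set T : ℕ → ℂ := fun c => ∑ n ∈ s, e ((n : ℝ) * (x + (c : ℝ) / r)) with hT
  set D := (range r).filter (fun c => Nat.Coprime c r) with hD
  have h1 : ∑ c ∈ D, T c = (ArithmeticFunction.moebius r : ℂ) * ∑ n ∈ s, e ((n : ℝ) * x) := by
    simp only [hT]
    rw [sum_comm, mul_sum]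
    refine sum_congr rfl fun n hn => ?_
    rw [← ramanujan r n hr1 (hs n hn), sum_mul]
    refine sum_congr rfl fun c _ => ?_
    rw [← e_add]
    congr 1
    ring
  have h2 : ‖(ArithmeticFunction.moebius r : ℂ)‖ = 1 := by
    rw [Complex.norm_intCast, ← Int.cast_abs,
      ArithmeticFunction.abs_moebius_eq_one_of_squarefree hr, Int.cast_one]
  have h3 : ‖∑ n ∈ s, e ((n : ℝ) * x)‖ = ‖∑ c ∈ D, T c‖ := by
    rw [h1, norm_mul, h2, one_mul]
  rw [h3]
  calc ‖∑ c ∈ D, T c‖ ^ 2 ≤ (∑ c ∈ D, ‖T c‖) ^ 2 :=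
        pow_le_pow_left₀ (norm_nonneg _) (norm_sum_le _ _) 2
    _ ≤ (D.card : ℝ) * ∑ c ∈ D, ‖T c‖ ^ 2 := sq_sum_le_card_mul_sum_sq
    _ ≤ (r : ℝ) * ∑ c ∈ D, ‖T c‖ ^ 2 := by
        refine mul_le_mul_of_nonneg_right ?_ (sum_nonneg fun _ _ => sq_nonneg _)
        have h4 : D.card ≤ r := by
          refine (card_filter_le _ _).trans ?_
          rw [card_range]
        exact_mod_cast h4

end Pool.Agent.H26.LDP
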