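import Pool.Agent.H26.LDP.Diff
import Pool.Agent.H26.LDP.Recur

/-!
# Large cubic Weyl sums force a rational approximation

Proof of `weyl`. Let k1 = κ^2/8 and k2 = k1^2/8 = κ^4/512. All conditions of the form
(constant) <= κ^a M below follow from hM : 2^24 <= κ^9 M since κ <= 1.
(a) `weyl_diff` with f m = m^3 x: κ^2 M^2 <= ‖C‖^2 <= M + 2 sum_{h=1}^{M-1} ‖D_h‖, where
D_h = sum_{m=1}^{M-h} e(f(m+h) - f m). As M <= κ^2 M^2/2: sum_h ‖D_h‖ >= κ^2 M^2/4. Each ‖D_h‖ <= M, so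
the set L1 of h in [1,M-1] with ‖D_h‖ >= k1 M has at least k1 M elements.
(b) Let h in L1. `weyl_diff` with f2 m = f(m+h) - f m and length M-h: f2(m+l) - f2 m = (6 h l x) m + const, so by
`geom` and `norm_sum_e_le` the inner sums B_l satisfy ‖B_l‖ <= M and ‖B_l‖ * 2 nn(6 h l x) <= 1. From
k1^2 M^2 <= ‖D_h‖^2 <= M + 2 sum_l ‖B_l‖ and M <= k1^2 M^2/2 get sum_l ‖B_l‖ >= k1^2 M^2/4, so at least
k2 M of the l in [1,M-1] have ‖B_l‖ >= k2 M, and then nn(6 h l x) <= 1/(2 k2 M). `recur` with N = M,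
g = 6 h x, tau = 1/(2 k2 M), nu = k2 gives q_h in [1, 2/k2] with nn(q_h 6 h x) <= 32 tau/(k2^2 M) = 16/(k2^3 M^2).
(c) Pigeonhole over the at most 2/k2 values of q_h: a single q1 <= 2/k2 serves at least k1 M/(2/k2) = (k1 k2/2) M
elements h of L1. `recur` with N = M, g = 6 q1 x, tau' = 16/(k2^3 M^2), nu' = k1 k2/2 gives
q2 <= 2/nu' = 4/(k1 k2) with nn(q2 6 q1 x) <= 32 tau'/(nu'^2 M) = 2048/(k1^2 k2^5 M^3) = 2^62/(κ^24 M^3).
(d) q = 6 q1 q2 <= 6 (2/k2) (4/(k1 k2)) = 48/(k1 k2^2) = 48 * 8 * 2^18/κ^10 <= 2^64/κ^24.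
Conditions used: M >= 2/κ^2, M >= 2/k1^2 = 128/κ^4, 16 tau <= nu: M >= 8/k2^2 = 2^21/κ^8, nu M >= 2,
16 tau' <= nu': M^2 >= 512/(k1 k2^4) = 2^48/κ^18, i.e. M >= 2^24/κ^9, and nu' M >= 2: M >= 2^14/κ^6.
-/

namespace Pool.Agent.H26.LDP

open Finset

/-- Many of the summands are large. -/
private theorem popular (M n : ℕ) (hn : n ≤ M) (B : ℕ → ℝ) (hB : ∀ h ∈ Icc 1 n, B h ≤ M) (κ : ℝ)
    (hκ : 0 < κ) (hM : 2 ≤ κ ^ 2 * (M : ℝ))
    (h : κ ^ 2 * (M : ℝ) ^ 2 ≤ M + 2 * ∑ h ∈ Icc 1 n, B h) :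
    κ ^ 2 / 8 * (M : ℝ) ≤ (((Icc 1 n).filter (fun h => κ ^ 2 / 8 * (M : ℝ) ≤ B h)).card : ℝ) := by
  have hM0 : (0 : ℝ) < M := by
    by_contra hcon
    have : (M : ℝ) = 0 := le_antisymm (not_lt.mp hcon) (Nat.cast_nonneg M)
    rw [this] at hM
    linarith
  have h1 : ∑ h ∈ Icc 1 n, B h ≤
      (((Icc 1 n).filter (fun h => κ ^ 2 / 8 * (M : ℝ) ≤ B h)).card : ℝ) * M
        + (n : ℝ) * (κ ^ 2 / 8 * M) := by
    rw [← sum_filter_add_sum_filter_not (Icc 1 n) (fun h => κ ^ 2 / 8 * (M : ℝ) ≤ B h)]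
    apply add_le_add
    · calc ∑ h ∈ (Icc 1 n).filter (fun h => κ ^ 2 / 8 * (M : ℝ) ≤ B h), B h
          ≤ ∑ _h ∈ (Icc 1 n).filter (fun h => κ ^ 2 / 8 * (M : ℝ) ≤ B h), (M : ℝ) :=
            sum_le_sum fun h hh => hB h (mem_filter.mp hh).1
        _ = _ := by rw [sum_const, nsmul_eq_mul]
    · calc ∑ h ∈ (Icc 1 n).filter (fun h => ¬ κ ^ 2 / 8 * (M : ℝ) ≤ B h), B h
          ≤ ∑ _h ∈ (Icc 1 n).filter (fun h => ¬ κ ^ 2 / 8 * (M : ℝ) ≤ B h), (κ ^ 2 / 8 * M) :=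
            sum_le_sum fun h hh => (not_le.mp (mem_filter.mp hh).2).le
        _ = (((Icc 1 n).filter (fun h => ¬ κ ^ 2 / 8 * (M : ℝ) ≤ B h)).card : ℝ)
              * (κ ^ 2 / 8 * M) := by rw [sum_const, nsmul_eq_mul]
        _ ≤ (n : ℝ) * (κ ^ 2 / 8 * M) := by
            apply mul_le_mul_of_nonneg_right _ (by positivity)
            have := card_filter_le (Icc 1 n) (fun h => ¬ κ ^ 2 / 8 * (M : ℝ) ≤ B h)
            rw [Nat.card_Icc, Nat.add_sub_cancel] at this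
            exact_mod_cast this
  have h2 : (n : ℝ) * (κ ^ 2 / 8 * M) ≤ (M : ℝ) * (κ ^ 2 / 8 * M) := by
    apply mul_le_mul_of_nonneg_right _ (by positivity)
    exact_mod_cast hn
  have h3 : 2 * (M : ℝ) ≤ κ ^ 2 * M * M := mul_le_mul_of_nonneg_right hM hM0.le
  have h4 : κ ^ 2 / 8 * (M : ℝ) * M ≤
      (((Icc 1 n).filter (fun h => κ ^ 2 / 8 * (M : ℝ) ≤ B h)).card : ℝ) * M := by
    nlinarith
  exact le_of_mul_le_mul_right h4 hM0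

/-- The inner step: a large sum of a quadratic phase. -/
private theorem inner (M : ℕ) (x k1 k2 : ℝ) (hk1 : 0 < k1) (hk2 : k2 = k1 ^ 2 / 8)
    (c1 : 2 ≤ k1 ^ 2 * (M : ℝ)) (c2 : 8 ≤ k2 ^ 2 * (M : ℝ)) (c3 : 2 ≤ k2 * (M : ℝ)) (h : ℕ)
    (hh : k1 * M ≤ ‖∑ m ∈ Icc 1 (M - h), e (((m + h : ℕ) : ℝ) ^ 3 * x - (m : ℝ) ^ 3 * x)‖) :
    ∃ q : ℕ, 1 ≤ q ∧ (q : ℝ) ≤ 2 / k2 ∧
      nn ((q : ℝ) * (6 * h * x)) ≤ 16 / (k2 ^ 3 * (M : ℝ) ^ 2) := by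
  have hk2p : 0 < k2 := by rw [hk2]; positivity
  have hM0 : (0 : ℝ) < M := by
    by_contra hcon
    have : (M : ℝ) = 0 := le_antisymm (not_lt.mp hcon) (Nat.cast_nonneg M)
    rw [this] at c1
    linarith
  set f2 : ℕ → ℝ := fun m => ((m + h : ℕ) : ℝ) ^ 3 * x - (m : ℝ) ^ 3 * x with hf2
  set B : ℕ → ℝ := fun l => ‖∑ m ∈ Icc 1 (M - h - l), e (f2 (m + l) - f2 m)‖ with hB
  have h1 := weyl_diff f2 (M - h)
  have h2 : k1 ^ 2 * (M : ℝ) ^ 2 ≤ M + 2 * ∑ l ∈ Icc 1 (M - h - 1), B l := by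
    have h3 : (k1 * M) ^ 2 ≤ ‖∑ m ∈ Icc 1 (M - h), e (f2 m)‖ ^ 2 :=
      pow_le_pow_left₀ (by positivity) hh 2
    have h4 : ((M - h : ℕ) : ℝ) ≤ M := by exact_mod_cast Nat.sub_le M h
    calc k1 ^ 2 * (M : ℝ) ^ 2 = (k1 * M) ^ 2 := by ring
      _ ≤ _ := h3
      _ ≤ _ := h1
      _ ≤ _ := by linarith
  have hBM : ∀ l ∈ Icc 1 (M - h - 1), B l ≤ M := by
    intro l _
    refine (norm_sum_e_le (fun m => f2 (m + l) - f2 m) (M - h - l)).trans ?_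
    exact_mod_cast (Nat.sub_le _ _).trans (Nat.sub_le _ _)
  have h5 := popular M (M - h - 1) ((Nat.sub_le _ _).trans (Nat.sub_le _ _)) B hBM k1 hk1 c1 h2
  rw [← hk2] at h5
  have hrec : ∀ l ∈ (Icc 1 (M - h - 1)).filter (fun l => k2 * (M : ℝ) ≤ B l),
      nn ((l : ℝ) * (6 * h * x)) ≤ 1 / (2 * k2 * M) := by
    intro l hl
    rw [mem_filter] at hl
    have h6 : B l * (2 * nn ((l : ℝ) * (6 * h * x))) ≤ 1 := by
      have h7 := geom ((l : ℝ) * (6 * h * x)) ((3 * (h : ℝ) ^ 2 * l + 3 * h * (l : ℝ) ^ 2) * x)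
        (M - h - l)
      have h8 : ∑ m ∈ Icc 1 (M - h - l), e (f2 (m + l) - f2 m) = ∑ m ∈ Icc 1 (M - h - l),
          e ((l : ℝ) * (6 * h * x) * m + (3 * (h : ℝ) ^ 2 * l + 3 * h * (l : ℝ) ^ 2) * x) := by
        apply sum_congr rfl
        intro m _
        congr 1
        simp only [hf2]
        push_cast
        ring
      simp only [hB]
      rw [h8]
      exact h7
    rw [le_div_iff₀ (by positivity)]
    have h9 : k2 * M * (2 * nn ((l : ℝ) * (6 * h * x))) ≤ B l * (2 * nn ((l : ℝ) * (6 * h * x))) :=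
      mul_le_mul_of_nonneg_right hl.2 (by have := nn_nonneg ((l : ℝ) * (6 * h * x)); linarith)
    linarith
  have hsub : (Icc 1 (M - h - 1)).filter (fun l => k2 * (M : ℝ) ≤ B l) ⊆ Icc 1 M := by
    intro l hl
    rw [mem_filter, mem_Icc] at hl
    rw [mem_Icc]
    omega
  obtain ⟨q, hq1, hq2, hq3⟩ := recur M _ hsub (6 * h * x) (1 / (2 * k2 * M)) k2 hk2p h5 c3 (by
    rw [mul_one_div, div_le_iff₀ (by positivity)]
    nlinarith) hrec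
  refine ⟨q, hq1, hq2, hq3.trans (le_of_eq ?_)⟩
  field_simp
  norm_num

theorem weyl (M : ℕ) (x κ : ℝ) (hκ : 0 < κ) (hκ1 : κ ≤ 1) (hM : 2 ^ 24 ≤ κ ^ 9 * (M : ℝ))
    (h : κ * M ≤ ‖C M x‖) :
    ∃ q : ℕ, 1 ≤ q ∧ (q : ℝ) ≤ 2 ^ 64 / κ ^ 24 ∧
      nn ((q : ℝ) * x) ≤ 2 ^ 64 / κ ^ 24 / (M : ℝ) ^ 3 := by
  have hM0 : (0 : ℝ) < M := by
    by_contra hcon
    have : (M : ℝ) = 0 := le_antisymm (not_lt.mp hcon) (Nat.cast_nonneg M)
    rw [this] at hM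
    norm_num at hM
  have hp : ∀ n : ℕ, n ≤ 9 → 2 ^ 24 ≤ κ ^ n * (M : ℝ) := by
    intro n hn
    exact hM.trans (mul_le_mul_of_nonneg_right (pow_le_pow_of_le_one hκ.le hκ1 hn) hM0.le)
  obtain ⟨k1, hk1⟩ : ∃ k1 : ℝ, k1 = κ ^ 2 / 8 := ⟨_, rfl⟩
  obtain ⟨k2, hk2⟩ : ∃ k2 : ℝ, k2 = k1 ^ 2 / 8 := ⟨_, rfl⟩
  have hk1p : 0 < k1 := by rw [hk1]; positivity
  have hk2p : 0 < k2 := by rw [hk2]; positivity
  have hk2' : k2 = κ ^ 4 / 512 := by rw [hk2, hk1]; ring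
  have c1 : 2 ≤ k1 ^ 2 * (M : ℝ) := by
    have := hp 4 (by norm_num)
    have e1 : k1 ^ 2 * (M : ℝ) = κ ^ 4 * M / 64 := by rw [hk1]; ring
    rw [e1]
    linarith
  have c2 : 8 ≤ k2 ^ 2 * (M : ℝ) := by
    have := hp 8 (by norm_num)
    have e1 : k2 ^ 2 * (M : ℝ) = κ ^ 8 * M / 262144 := by rw [hk2']; ring
    rw [e1]
    linarith
  have c3 : 2 ≤ k2 * (M : ℝ) := by
    have := hp 4 (by norm_num)
    have e1 : k2 * (M : ℝ) = κ ^ 4 * M / 512 := by rw [hk2']; ring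
    rw [e1]
    linarith
  have c4 : 2 ≤ k1 * k2 / 2 * (M : ℝ) := by
    have := hp 6 (by norm_num)
    have e1 : k1 * k2 / 2 * (M : ℝ) = κ ^ 6 * M / 8192 := by rw [hk2', hk1]; ring
    rw [e1]
    linarith
  have c5 : 512 ≤ k1 * k2 ^ 4 * (M : ℝ) ^ 2 := by
    have h1 : ((2 : ℝ) ^ 24) ^ 2 ≤ (κ ^ 9 * (M : ℝ)) ^ 2 := pow_le_pow_left₀ (by positivity) hM 2
    have e1 : k1 * k2 ^ 4 * (M : ℝ) ^ 2 = (κ ^ 9 * (M : ℝ)) ^ 2 / 2 ^ 39 := by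
      rw [hk2', hk1]
      ring
    rw [e1, le_div_iff₀ (by positivity)]
    refine le_trans (le_of_eq ?_) h1
    norm_num
  -- first differencing
  set D : ℕ → ℝ := fun h => ‖∑ m ∈ Icc 1 (M - h), e (((m + h : ℕ) : ℝ) ^ 3 * x - (m : ℝ) ^ 3 * x)‖
    with hD
  have h1 := weyl_diff (fun m => (m : ℝ) ^ 3 * x) M
  have h2 : κ ^ 2 * (M : ℝ) ^ 2 ≤ M + 2 * ∑ h ∈ Icc 1 (M - 1), D h := by
    have h3 : (κ * M) ^ 2 ≤ ‖C M x‖ ^ 2 := pow_le_pow_left₀ (by positivity) h 2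
    calc κ ^ 2 * (M : ℝ) ^ 2 = (κ * M) ^ 2 := by ring
      _ ≤ _ := h3
      _ ≤ _ := h1
  have hDM : ∀ h ∈ Icc 1 (M - 1), D h ≤ M := by
    intro h _
    refine (norm_sum_e_le (fun m => ((m + h : ℕ) : ℝ) ^ 3 * x - (m : ℝ) ^ 3 * x) (M - h)).trans ?_
    exact_mod_cast Nat.sub_le _ _
  have c0 : 2 ≤ κ ^ 2 * (M : ℝ) := by
    have := hp 2 (by norm_num)
    linarith
  have h5 := popular M (M - 1) (Nat.sub_le _ _) D hDM κ hκ c0 h2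
  rw [← hk1] at h5
  set L1 := (Icc 1 (M - 1)).filter (fun h => k1 * (M : ℝ) ≤ D h) with hL1
  have H : ∀ h ∈ L1, ∃ q : ℕ, 1 ≤ q ∧ (q : ℝ) ≤ 2 / k2 ∧
      nn ((q : ℝ) * (6 * h * x)) ≤ 16 / (k2 ^ 3 * (M : ℝ) ^ 2) := by
    intro h hh
    exact inner M x k1 k2 hk1p hk2 c1 c2 c3 h (mem_filter.mp hh).2
  choose! qf hqf1 hqf2 hqf3 using H
  -- pigeonhole
  have hk2le : k2 ≤ 2 := by
    rw [hk2']
    have : κ ^ 4 ≤ 1 := pow_le_one₀ hκ.le hκ1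
    linarith
  obtain ⟨q1, hq1t, hq1c⟩ := exists_le_card_fiber_of_nsmul_le_card_of_maps_to (s := L1)
    (t := Icc 1 ⌊2 / k2⌋₊) (f := qf) (b := k1 * k2 / 2 * (M : ℝ)) (by
      intro h hh
      rw [mem_Icc]
      exact ⟨hqf1 h hh, Nat.le_floor (hqf2 h hh)⟩) (by
      refine ⟨1, mem_Icc.mpr ⟨le_rfl, Nat.le_floor ?_⟩⟩
      rw [Nat.cast_one, le_div_iff₀ hk2p]
      linarith) (by
      rw [Nat.card_Icc, Nat.add_sub_cancel, nsmul_eq_mul]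
      have h6 : (⌊2 / k2⌋₊ : ℝ) ≤ 2 / k2 := Nat.floor_le (by positivity)
      calc (⌊2 / k2⌋₊ : ℝ) * (k1 * k2 / 2 * M) ≤ 2 / k2 * (k1 * k2 / 2 * M) :=
            mul_le_mul_of_nonneg_right h6 (by positivity)
        _ = k1 * M := by field_simp
        _ ≤ _ := h5)
  rw [mem_Icc] at hq1t
  have hq1r : (q1 : ℝ) ≤ 2 / k2 := (Nat.le_floor_iff (by positivity)).mp hq1t.2
  have hsub : L1.filter (fun h => qf h = q1) ⊆ Icc 1 M := by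
    intro l hl
    rw [mem_filter, hL1, mem_filter, mem_Icc] at hl
    rw [mem_Icc]
    omega
  obtain ⟨q2, hq21, hq22, hq23⟩ := recur M _ hsub (6 * q1 * x) (16 / (k2 ^ 3 * (M : ℝ) ^ 2))
    (k1 * k2 / 2) (by positivity) hq1c c4 (by
      rw [mul_div_assoc', div_le_iff₀ (by positivity)]
      have e1 : k1 * k2 / 2 * (k2 ^ 3 * (M : ℝ) ^ 2) = k1 * k2 ^ 4 * (M : ℝ) ^ 2 / 2 := by ring
      rw [e1]
      linarith) (by
      intro l hl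
      rw [mem_filter] at hl
      have h7 := hqf3 l hl.1
      rw [hl.2] at h7
      have e1 : (l : ℝ) * (6 * q1 * x) = (q1 : ℝ) * (6 * l * x) := by ring
      rw [e1]
      exact h7)
  refine ⟨6 * q1 * q2, ?_, ?_, ?_⟩
  · have : 1 ≤ q1 * q2 := Nat.mul_pos hq1t.1 hq21
    nlinarith
  · push_cast
    have h8 : 2 / (k1 * k2 / 2) = 4 / (k1 * k2) := by field_simp; norm_num
    rw [h8] at hq22
    calc 6 * (q1 : ℝ) * q2 ≤ 6 * (2 / k2) * (4 / (k1 * k2)) := by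
          apply mul_le_mul _ hq22 (Nat.cast_nonneg _) (by positivity)
          linarith
      _ = 48 * 2 ^ 21 / κ ^ 10 := by
          rw [hk2', hk1]
          field_simp
          norm_num
      _ ≤ 2 ^ 64 / κ ^ 10 := by
          apply div_le_div_of_nonneg_right _ (by positivity)
          norm_num
      _ ≤ 2 ^ 64 / κ ^ 24 := by
          apply div_le_div_of_nonneg_left (by positivity) (by positivity)
          exact pow_le_pow_of_le_one hκ.le hκ1 (by norm_num)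
  · have e1 : ((6 * q1 * q2 : ℕ) : ℝ) * x = (q2 : ℝ) * (6 * q1 * x) := by
      push_cast
      ring
    rw [e1]
    refine hq23.trans ?_
    have e2 : 32 * (16 / (k2 ^ 3 * (M : ℝ) ^ 2)) / ((k1 * k2 / 2) ^ 2 * M)
        = 2 ^ 62 / κ ^ 24 / (M : ℝ) ^ 3 := by
      rw [hk2', hk1]
      field_simp
      norm_num
    rw [e2]
    apply div_le_div_of_nonneg_right _ (by positivity)
    apply div_le_div_of_nonneg_right _ (by positivity)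
    norm_num

/-- The case κ = 2^(-j). -/
theorem weyl_level (M j : ℕ) (x : ℝ) (hj : 2 ^ (24 + 9 * j) ≤ M)
    (h : (1 / 2 : ℝ) ^ j * M ≤ ‖C M x‖) :
    Maj (2 ^ (64 + 24 * j)) ((2 : ℝ) ^ (64 + 24 * j) / (M : ℝ) ^ 3) x := by
  have hM0 : (0 : ℝ) < M := by
    have : 0 < M := lt_of_lt_of_le (by positivity) hj
    exact_mod_cast this
  have hMr : (2 : ℝ) ^ (24 + 9 * j) ≤ M := by exact_mod_cast hj
  have e1 : (2 : ℝ) ^ 64 / ((1 / 2 : ℝ) ^ j) ^ 24 = 2 ^ (64 + 24 * j) := by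
    rw [← pow_mul, one_div, inv_pow, div_inv_eq_mul, ← pow_add]
    congr 2
    ring
  obtain ⟨q, hq1, hq2, hq3⟩ := weyl M x ((1 / 2 : ℝ) ^ j) (by positivity)
    (pow_le_one₀ (by norm_num) (by norm_num)) (by
      have : ((1 / 2 : ℝ) ^ j) ^ 9 * 2 ^ (24 + 9 * j) = 2 ^ 24 := by
        rw [← pow_mul, pow_add, mul_comm j 9]
        rw [one_div, inv_pow]
        field_simp
      calc (2 : ℝ) ^ 24 = ((1 / 2 : ℝ) ^ j) ^ 9 * 2 ^ (24 + 9 * j) := this.symm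
        _ ≤ ((1 / 2 : ℝ) ^ j) ^ 9 * M := by
          apply mul_le_mul_of_nonneg_left hMr (by positivity)) h
  rw [e1] at hq2 hq3
  refine ⟨q, hq1, by exact_mod_cast hq2, round ((q : ℝ) * x), ?_⟩
  have hq0 : (0 : ℝ) < q := by exact_mod_cast hq1
  have hq1' : (1 : ℝ) ≤ q := by exact_mod_cast hq1
  have h3 : |x - (round ((q : ℝ) * x) : ℝ) / q| = nn ((q : ℝ) * x) / q := by
    unfold nn
    rw [eq_div_iff hq0.ne']
    conv_lhs => rw [← abs_of_pos hq0, ← abs_mul]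
    congr 1
    rw [abs_of_pos hq0]
    field_simp
  rw [h3]
  calc nn ((q : ℝ) * x) / q ≤ nn ((q : ℝ) * x) / 1 :=
        div_le_div_of_nonneg_left (nn_nonneg _) one_pos hq1'
    _ = nn ((q : ℝ) * x) := div_one _
    _ ≤ _ := hq3

end Pool.Agent.H26.LDP
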